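import Pool.Agent.Y666.SF.Stm3

/-!
# PROJECT SF: filters and ideals in the sense of Mathlib
-/

set_option autoImplicit false
set_option linter.dupNamespace false

open OrderDual

namespace Pool.Agent.Y666.SF.Y666

theorem ff_of_pf {P : Type} [PartialOrder P] (h : ∀ S : Set (Order.PFilter P),
    (∀ F ∈ S, ∀ G ∈ S, ¬ ∃ p ∈ F, ∀ q ∈ G, p < q) → S.Finite) : FF P := by
  intro s hs
  have hp : ∀ F : Flt P, Order.IsPFilter F.carrier := fun F =>
    Order.IsPFilter.of_def F.nonempty (fun x hx y hy => F.dir x hx y hy)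
      (fun hxy hx => F.up _ hx _ hxy)
  let φ : Flt P → Order.PFilter P := fun F => (hp F).toPFilter
  have hφ : ∀ (F : Flt P) (x : P), x ∈ φ F ↔ x ∈ F.carrier := fun F x => Iff.rfl
  have hinj : Function.Injective φ := by
    intro F G hFG
    apply Flt.ext'
    ext x
    rw [← hφ F, ← hφ G, hFG]
  have hfin : (φ '' s).Finite := by
    apply h
    rintro _ ⟨F, hF, rfl⟩ _ ⟨G, hG, rfl⟩ ⟨p, hp, hpq⟩
    exact hs F hF G hG ⟨p, hp, hpq⟩
  exact hfin.of_finite_image hinj.injOn

theorem pf_of_ff {P : Type} [PartialOrder P] (h : FF P) (S : Set (Order.PFilter P))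
    (hS : ∀ F ∈ S, ∀ G ∈ S, ¬ ∃ p ∈ F, ∀ q ∈ G, p < q) : S.Finite := by
  let φ : Order.PFilter P → Flt P := fun F =>
    { carrier := F
      nonempty := F.nonempty
      up := fun x hx y hxy => Order.PFilter.mem_of_le hxy hx
      dir := fun x hx y hy => F.directed x hx y hy }
  have hinj : Function.Injective φ := by
    intro F G hFG
    exact Order.PFilter.ext _ _ (congrArg Flt.carrier hFG)
  have hfin : (φ '' S).Finite := by
    apply h
    rintro _ ⟨F, hF, rfl⟩ _ ⟨G, hG, rfl⟩ ⟨p, hp, hpq⟩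
    exact hS F hF G hG ⟨p, hp, hpq⟩
  exact hfin.of_finite_image hinj.injOn

theorem ffd_of_id {P : Type} [PartialOrder P] (h : ∀ S : Set (Order.Ideal P),
    (∀ I ∈ S, ∀ J ∈ S, ¬ ∃ p ∈ J, ∀ q ∈ I, q < p) → S.Finite) : FF Pᵒᵈ := by
  intro s hs
  let φ : Flt Pᵒᵈ → Order.Ideal P := fun F =>
    { carrier := toDual ⁻¹' F.carrier
      lower' := fun a b hba ha => F.up (toDual a) ha (toDual b) hba
      nonempty' := F.nonempty
      directed' := fun x hx y hy => F.dir (toDual x) hx (toDual y) hy }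
  have hinj : Function.Injective φ := by
    intro F G hFG
    have h1 : ((φ F : Order.Ideal P) : Set P) = (φ G : Order.Ideal P) := by rw [hFG]
    exact Flt.ext' h1
  have hfin : (φ '' s).Finite := by
    apply h
    rintro _ ⟨F, hF, rfl⟩ _ ⟨G, hG, rfl⟩ ⟨p, hp, hpq⟩
    exact hs G hG F hF ⟨toDual p, hp, fun q hq => hpq (ofDual q) hq⟩
  exact hfin.of_finite_image hinj.injOn

theorem id_of_ffd {P : Type} [PartialOrder P] (h : FF Pᵒᵈ) (S : Set (Order.Ideal P))
    (hS : ∀ I ∈ S, ∀ J ∈ S, ¬ ∃ p ∈ J, ∀ q ∈ I, q < p) : S.Finite := by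
  let φ : Order.Ideal P → Flt Pᵒᵈ := fun I =>
    { carrier := ofDual ⁻¹' (I : Set P)
      nonempty := I.nonempty
      up := fun x hx y hxy => I.lower (show ofDual y ≤ ofDual x from hxy) hx
      dir := fun x hx y hy => I.directed (ofDual x) hx (ofDual y) hy }
  have hinj : Function.Injective φ := by
    intro F G hFG
    have h1 : (F : Set P) = G := congrArg Flt.carrier hFG
    exact Order.Ideal.ext h1
  have hfin : (φ '' S).Finite := by
    apply h
    rintro _ ⟨F, hF, rfl⟩ _ ⟨G, hG, rfl⟩ ⟨p, hp, hpq⟩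
    exact hS G hG F hF ⟨ofDual p, hp, fun q hq => hpq (toDual q) hq⟩
  exact hfin.of_finite_image hinj.injOn

end Pool.Agent.Y666.SF.Y666
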