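import Pool.Agent.Y666.SF.Stm3

/-!
# PROJECT SF: lexicographic sums along chains
-/

set_option autoImplicit false
set_option linter.dupNamespace false

open OrderDual

namespace Pool.Agent.Y666.SF.Y666

theorem lex_le_same {I : Type} [LinearOrder I] {P : I → Type} [∀ i, PartialOrder (P i)] {i : I}
    {x y : P i} : (toLex ⟨i, x⟩ : Σₗ i, P i) ≤ toLex ⟨i, y⟩ ↔ x ≤ y := by
  rw [Sigma.Lex.le_def]
  constructor
  · rintro (h | ⟨h, h'⟩)
    · exact absurd h (lt_irrefl i)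
    · exact h'
  · intro h
    exact Or.inr ⟨rfl, h⟩

theorem lex_lt_same {I : Type} [LinearOrder I] {P : I → Type} [∀ i, PartialOrder (P i)] {i : I}
    {x y : P i} : (toLex ⟨i, x⟩ : Σₗ i, P i) < toLex ⟨i, y⟩ ↔ x < y := by
  rw [lt_iff_le_not_ge, lt_iff_le_not_ge, lex_le_same, lex_le_same]

theorem lex_lt {I : Type} [LinearOrder I] {P : I → Type} [∀ i, PartialOrder (P i)] {i j : I}
    (h : i < j) (x : P i) (y : P j) : (toLex ⟨i, x⟩ : Σₗ i, P i) < toLex ⟨j, y⟩ := by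
  rw [Sigma.Lex.lt_def]
  exact Or.inl h

theorem fst_le {I : Type} [LinearOrder I] {P : I → Type} [∀ i, PartialOrder (P i)] {i j : I}
    {x : P i} {y : P j} (h : (toLex ⟨i, x⟩ : Σₗ i, P i) ≤ toLex ⟨j, y⟩) : i ≤ j := by
  rw [Sigma.Lex.le_def] at h
  rcases h with h | ⟨h, -⟩
  · exact le_of_lt h
  · exact le_of_eq h

theorem ff_lex {I : Type} [LinearOrder I] {P : I → Type} [∀ i, PartialOrder (P i)]
    (h : ∀ i, FF (P i)) : FF (Σₗ i, P i) := by
  classical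
  intro s hs
  rcases s.eq_empty_or_nonempty with rfl | ⟨F0, hF0⟩
  · exact Set.finite_empty
  have h1 : ∀ F ∈ s, ∀ G ∈ s, ∀ (i : I) (x : P i), (toLex ⟨i, x⟩ : Σₗ i, P i) ∈ F.carrier →
      ∃ y : P i, (toLex ⟨i, y⟩ : Σₗ i, P i) ∈ G.carrier := by
    intro F hF G hG i x hx
    by_contra hcon
    apply hs F hF G hG
    refine ⟨_, hx, ?_⟩
    rintro ⟨j, y⟩ hy
    rcases lt_trichotomy i j with hij | rfl | hij
    · exact lex_lt hij x y
    · exact absurd ⟨y, hy⟩ hcon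
    · exact absurd ⟨x, G.up _ hy _ (lex_lt hij y x).le⟩ hcon
  let I0 : Set I := {i | ∃ x : P i, (toLex ⟨i, x⟩ : Σₗ i, P i) ∈ F0.carrier}
  have hI0 : ∀ F ∈ s, ∀ i, i ∈ I0 ↔ ∃ x : P i, (toLex ⟨i, x⟩ : Σₗ i, P i) ∈ F.carrier := by
    intro F hF i
    constructor
    · rintro ⟨x, hx⟩
      exact h1 F0 hF0 F hF i x hx
    · rintro ⟨x, hx⟩
      exact h1 F hF F0 hF0 i x hx
  by_cases hmin : ∃ i0 ∈ I0, ∀ j ∈ I0, i0 ≤ j
  · obtain ⟨i0, hi0, hle⟩ := hmin
    have hex : ∀ F : Flt (Σₗ i, P i), F ∈ s → ∃ F' : Flt (P i0), ∀ x, x ∈ F'.carrier ↔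
        (toLex ⟨i0, x⟩ : Σₗ i, P i) ∈ F.carrier := by
      intro F hF
      refine ⟨⟨{x | (toLex ⟨i0, x⟩ : Σₗ i, P i) ∈ F.carrier}, (hI0 F hF i0).1 hi0, ?_, ?_⟩,
        fun x => Iff.rfl⟩
      · intro x hx y hxy
        exact F.up _ hx _ (lex_le_same.2 hxy)
      · intro x hx y hy
        obtain ⟨⟨j, z⟩, hz, hzx, hzy⟩ := F.dir _ hx _ hy
        have hj : j = i0 := le_antisymm (fst_le hzx) (hle j ((hI0 F hF j).2 ⟨z, hz⟩))
        subst hj
        exact ⟨z, hz, lex_le_same.1 hzx, lex_le_same.1 hzy⟩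
    let φ : Flt (Σₗ i, P i) → Flt (P i0) := fun F => if hF : F ∈ s then (hex F hF).choose else
      (hex F0 hF0).choose
    have hφ : ∀ F ∈ s, ∀ x, x ∈ (φ F).carrier ↔ (toLex ⟨i0, x⟩ : Σₗ i, P i) ∈ F.carrier := by
      intro F hF
      have e : φ F = (hex F hF).choose := dif_pos hF
      rw [e]
      exact (hex F hF).choose_spec
    have hfin : (φ '' s).Finite := by
      apply h i0
      rintro _ ⟨F, hF, rfl⟩ _ ⟨G, hG, rfl⟩ ⟨p, hp, hpq⟩
      apply hs F hF G hG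
      refine ⟨toLex ⟨i0, p⟩, (hφ F hF p).1 hp, ?_⟩
      rintro ⟨j, y⟩ hy
      rcases (hle j ((hI0 G hG j).2 ⟨y, hy⟩)).lt_or_eq with hj | rfl
      · exact lex_lt hj p y
      · exact lex_lt_same.2 (hpq y ((hφ G hG y).2 hy))
    refine hfin.of_finite_image ?_
    have hsub : ∀ F ∈ s, ∀ G ∈ s, φ F = φ G → F.carrier ⊆ G.carrier := by
      rintro F hF G hG hFG ⟨j, y⟩ hy
      rcases (hle j ((hI0 F hF j).2 ⟨y, hy⟩)).lt_or_eq with hj | rfl
      · obtain ⟨x, hx⟩ := (hI0 G hG i0).1 hi0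
        exact G.up _ hx _ (lex_lt hj x y).le
      · have := (hφ F hF y).2 hy
        rw [hFG] at this
        exact (hφ G hG y).1 this
    intro F hF G hG hFG
    exact Flt.ext' (Set.Subset.antisymm (hsub F hF G hG hFG) (hsub G hG F hF hFG.symm))
  · have hmin' : ∀ i ∈ I0, ∃ j ∈ I0, j < i := by
      intro i hi
      by_contra hcon
      apply hmin
      refine ⟨i, hi, fun j hj => ?_⟩
      by_contra hij
      exact hcon ⟨j, hj, not_le.1 hij⟩
    have hsub : ∀ F ∈ s, ∀ G ∈ s, F.carrier ⊆ G.carrier := by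
      rintro F hF G hG ⟨j, y⟩ hy
      obtain ⟨k, hk, hkj⟩ := hmin' j ((hI0 F hF j).2 ⟨y, hy⟩)
      obtain ⟨x, hx⟩ := (hI0 G hG k).1 hk
      exact G.up _ hx _ (lex_lt hkj x y).le
    have : s.Subsingleton := fun F hF G hG =>
      Flt.ext' (Set.Subset.antisymm (hsub F hF G hG) (hsub G hG F hF))
    exact this.finite

theorem ff_iso {α β : Type} [PartialOrder α] [PartialOrder β] (e : α ≃o β) (h : FF α) : FF β := by
  intro s hs
  let φ : Flt β → Flt α := fun F =>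
    { carrier := e ⁻¹' F.carrier
      nonempty := by
        obtain ⟨x, hx⟩ := F.nonempty
        exact ⟨e.symm x, by simpa using hx⟩
      up := fun x hx y hxy => F.up _ hx _ (e.monotone hxy)
      dir := by
        intro x hx y hy
        obtain ⟨z, hz, hzx, hzy⟩ := F.dir _ hx _ hy
        refine ⟨e.symm z, by simpa using hz, ?_, ?_⟩
        · rw [e.symm_apply_le]; exact hzx
        · rw [e.symm_apply_le]; exact hzy }
  have hinj : Function.Injective φ := by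
    intro F G hFG
    have h1 : e ⁻¹' F.carrier = e ⁻¹' G.carrier := congrArg Flt.carrier hFG
    exact Flt.ext' (e.surjective.preimage_injective h1)
  have hfin : (φ '' s).Finite := by
    apply h
    rintro _ ⟨F, hF, rfl⟩ _ ⟨G, hG, rfl⟩ ⟨p, hp, hpq⟩
    apply hs F hF G hG
    refine ⟨e p, hp, fun q hq => ?_⟩
    have h2 := hpq (e.symm q) (show e (e.symm q) ∈ G.carrier by simpa using hq)
    rwa [e.lt_symm_apply] at h2
  exact hfin.of_finite_image hinj.injOn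

/-- The dual of a lexicographic sum. -/
def lexDual {I : Type} [LinearOrder I] (P : I → Type) [∀ i, PartialOrder (P i)] :
    (Σₗ i : Iᵒᵈ, (P (ofDual i))ᵒᵈ) ≃o (Σₗ i, P i)ᵒᵈ where
  toFun a := toDual (toLex ⟨ofDual (ofLex a).1, ofDual (ofLex a).2⟩)
  invFun a := toLex ⟨toDual (ofLex (ofDual a)).1, toDual (ofLex (ofDual a)).2⟩
  left_inv _ := rfl
  right_inv _ := rfl
  map_rel_iff' := by
    rintro ⟨i, x⟩ ⟨j, y⟩
    constructor
    · intro h
      have h' : (toLex ⟨ofDual j, ofDual y⟩ : Σₗ i, P i) ≤ toLex ⟨ofDual i, ofDual x⟩ := h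
      rw [Sigma.Lex.le_def] at h'
      show (toLex ⟨i, x⟩ : Σₗ i : Iᵒᵈ, (P (ofDual i))ᵒᵈ) ≤ toLex ⟨j, y⟩
      rw [Sigma.Lex.le_def]
      rcases h' with h' | ⟨h1, h2⟩
      · exact Or.inl h'
      · have h3 : j = i := h1
        subst h3
        exact Or.inr ⟨rfl, h2⟩
    · intro h
      show (toLex ⟨ofDual j, ofDual y⟩ : Σₗ i, P i) ≤ toLex ⟨ofDual i, ofDual x⟩
      replace h : (toLex ⟨i, x⟩ : Σₗ i : Iᵒᵈ, (P (ofDual i))ᵒᵈ) ≤ toLex ⟨j, y⟩ := h
      rw [Sigma.Lex.le_def] at h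
      rw [Sigma.Lex.le_def]
      rcases h with h' | ⟨h1, h2⟩
      · exact Or.inl h'
      · have h3 : i = j := h1
        subst h3
        exact Or.inr ⟨rfl, h2⟩

theorem tm_lex {I : Type} [LinearOrder I] {P : I → Type} [∀ i, PartialOrder (P i)]
    (h : ∀ i, Tm (P i)) : Tm (Σₗ i, P i) := by
  refine ⟨ff_lex fun i => (h i).1, ?_⟩
  exact ff_iso (lexDual P) (ff_lex (I := Iᵒᵈ) (P := fun i => (P (ofDual i))ᵒᵈ)
    fun i => (h (ofDual i)).2)

end Pool.Agent.Y666.SF.Y666
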