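import Pool.Agent.Y666.SP.Stm2

/-!
# PROJECT SF: posets with finite antichains of filters and of ideals have spines

The class `Tm` of posets: every family of pairwise non-separated filters is finite, and the same
for ideals.  It contains all posets of finite width.  The statements below have the same shape as
those of `Pool.Agent.Y666.SP.Stm2`; the number `w` is a dummy, `Wd α w` now means `Tm α`, and
`KLarge`, `KLargeU` speak about directed sets instead of chains.  Everything not redefined here is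
taken from `Pool.Agent.Y666.SP`.
-/

set_option autoImplicit false

open Cardinal OrderDual

namespace Pool.Agent.Y666.SF

open Pool.Agent.Y666.SP

/-- A filter: a nonempty upper set, directed downwards (it may have a least element). -/
structure Flt (α : Type) [PartialOrder α] where
  carrier : Set α
  nonempty : carrier.Nonempty
  up : ∀ x ∈ carrier, ∀ y, x ≤ y → y ∈ carrier
  dir : ∀ x ∈ carrier, ∀ y ∈ carrier, ∃ z ∈ carrier, z ≤ x ∧ z ≤ y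

theorem Flt.ext' {α : Type} [PartialOrder α] {F G : Flt α} (h : F.carrier = G.carrier) :
    F = G := by
  cases F; cases G; cases h; rfl

/-- `F` is separated below `G`: some element of `F` is below every element of `G`. -/
def Sep {α : Type} [PartialOrder α] (F G : Flt α) : Prop :=
  ∃ p ∈ F.carrier, ∀ q ∈ G.carrier, p < q

/-- Every family of pairwise non-separated filters is finite. -/
def FF (α : Type) [PartialOrder α] : Prop :=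
  ∀ s : Set (Flt α), (∀ a ∈ s, ∀ b ∈ s, ¬ Sep a b) → s.Finite

/-- The class of posets considered. -/
def Tm (α : Type) [PartialOrder α] : Prop := FF α ∧ FF αᵒᵈ

/-- Dummy width: `w` plays no role. -/
def Wd (α : Type) [PartialOrder α] (_w : ℕ) : Prop := Tm α

section kap
variable {α : Type} [PartialOrder α]

/-- `D` is nonempty and directed downwards, with at least `κ` elements below each of its elements. -/
def KLarge (κ : Cardinal.{0}) (D : Set α) : Prop :=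
  D.Nonempty ∧ DirectedOn (· ≥ ·) D ∧ ∀ d ∈ D, κ ≤ cd {y | y ∈ D ∧ y ≤ d}

/-- `D` is nonempty and directed upwards, with at least `κ` elements above each of its elements. -/
def KLargeU (κ : Cardinal.{0}) (D : Set α) : Prop :=
  D.Nonempty ∧ DirectedOn (· ≤ ·) D ∧ ∀ d ∈ D, κ ≤ cd {y | y ∈ D ∧ d ≤ y}

/-- (*) for `κ`. -/
def KStar (κ : Cardinal.{0}) (S : Set α) : Prop :=
  ∀ D ⊆ S, KLarge κ D → ∀ x ∈ S, ∃ d ∈ D, d ≤ x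

/-- The dual of (*) for `κ`. -/
def KStarU (κ : Cardinal.{0}) (S : Set α) : Prop :=
  ∀ D ⊆ S, KLargeU κ D → ∀ x ∈ S, ∃ d ∈ D, x ≤ d

end kap

/-! ## Statements, general part -/

/-- KAC: sets of pairwise not `kll`-related germs are finite. -/
def S_KAC : Prop := ∀ (α : Type) [PartialOrder α] (w : ℕ), Wd α w →
  ∀ (κ : Cardinal.{0}) (E : Set α) (s : Set (KGerm κ E)),
    (∀ a ∈ s, ∀ b ∈ s, ¬ kll a b) → s.Finite

/-- KSYS -/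
def S_KSYS : Prop := ∀ (α : Type) [PartialOrder α] (w : ℕ), Wd α w →
  ∀ (κ : Cardinal.{0}) (E : Set α), Sys (kll : KGerm κ E → KGerm κ E → Prop)

/-- KSTAR -/
def S_KSTAR : Prop := ∀ (α : Type) [PartialOrder α] (κ : Cardinal.{0}) (E : Set α)
  (G : Set (KGerm κ E)), KSel G → ∀ D ⊆ KBB G, KLarge κ D → ∀ x ∈ KBB G,
    (∀ d ∈ D, KSame G d x) → ∃ d ∈ D, d ≤ x

/-- KMP -/
def S_KMP : Prop := ∀ (α : Type) [PartialOrder α] (κ : Cardinal.{0}) (E : Set α)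
  (G : Set (KGerm κ E)), KSel G → ∀ g ∈ G, ∀ D ⊆ KBB G, KLarge κ D → D ⊆ g.carrier →
    (∀ z ∈ g.carrier, ∃ d ∈ D, d ≤ z) ∨ ∃ p ∈ g.carrier, ∀ d ∈ D, p < d

/-- KBET -/
def S_KBET : Prop := ∀ (α : Type) [PartialOrder α] (w : ℕ), Wd α w →
  ∀ (κ : Cardinal.{0}), ℵ₀ ≤ κ → ∀ (E : Set α) (G : Set (KGerm κ E)), KSel G →
  ∀ g ∈ G, ∀ h ∈ G, kll g h → κ ≤ cd {b | b ∈ KBB G ∧ b ∈ g.carrier ∧ ∀ q ∈ h.carrier, b < q}

/-- KCOI -/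
def S_KCOI : Prop := ∀ (α : Type) [PartialOrder α] (w : ℕ), Wd α w →
  ∀ (κ : Cardinal.{0}), ℵ₀ ≤ κ → ∀ (E : Set α) (G : Set (KGerm κ E)), KSel G →
  ∀ (C : Set α) (f : α → α), KBase G C f →
  ∀ g ∈ G, ∀ z ∈ g.carrier, κ ≤ cd {c | c ∈ C ∧ c ∈ g.carrier ∧ c ≤ z}

/-- KFREE -/
def S_KFREE : Prop := ∀ (α : Type) [PartialOrder α] (w : ℕ), Wd α w →
  ∀ (κ : Cardinal.{0}), ℵ₀ ≤ κ → ∀ (E : Set α) (G : Set (KGerm κ E)), KSel G →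
  ∀ (C : Set α) (f : α → α), KBase G C f →
  ∀ x ∈ E, x ∉ KBB G → κ ≤ cd {c | c ∈ C ∧ ∀ z ∈ KBB G, f z = c → ¬ x ≤ z ∧ ¬ z ≤ x}

/-- KRED -/
def S_KRED : Prop := ∀ (α : Type) [PartialOrder α] (w : ℕ), Wd α w →
  ∀ (κ : Cardinal.{0}), ℵ₀ ≤ κ → ∀ (E : Set α), (∀ x ∈ E, cd (Inc E x) ≤ κ) →
  ∀ (G : Set (KGerm κ E)), KSel G → ∀ (C : Set α) (f : α → α), KBase G C f →
  ∃ f' : α → α, Spine E C f' ∧ ∀ x ∈ KBB G, f' x = f x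

/-- KPC -/
def S_KPC : Prop := ∀ (α : Type) [PartialOrder α] (w : ℕ), Wd α w →
  ∀ (κ : Cardinal.{0}), ℵ₀ ≤ κ → ∀ (E : Set α), (∀ x ∈ E, cd (Inc E x) ≤ κ) →
  ∀ (G : Set (KGerm κ E)), KSel G → (∀ S ⊆ E, KStar κ S → HasSpine S) →
  (∀ x₀ ∈ KBB G, Ext (KPc G x₀) E) ∧ HasSpine E

/-- RED2: the two-stage reduction. -/
def S_RED2 : Prop := ∀ (α : Type) [PartialOrder α] (w : ℕ), Wd α w →
  ∀ (κ : Cardinal.{0}), ℵ₀ ≤ κ → ∀ (E : Set α), (∀ x ∈ E, cd (Inc E x) ≤ κ) →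
  (∀ S ⊆ E, KStar κ S → KStarU κ S → HasSpine S) → HasSpine E

/-- AC: there are no infinite antichains. -/
def S_AC : Prop := ∀ (α : Type) [PartialOrder α] (w : ℕ), Wd α w →
  ∀ s : Set α, IsAntichain (· ≤ ·) s → s.Finite

/-- DIR: without infinite antichains every set is a finite union of down-directed sets. -/
def S_DIR : Prop := ∀ (α : Type) [PartialOrder α],
  (∀ s : Set α, IsAntichain (· ≤ ·) s → s.Finite) → ∀ Z : Set α,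
  ∃ (n : ℕ) (D : Fin n → Set α), (∀ i, D i ⊆ Z) ∧ (∀ i, DirectedOn (· ≥ ·) (D i)) ∧
    ∀ z ∈ Z, ∃ i, z ∈ D i

/-- BIG: sets of size at least `κ` contain large subsets. -/
def S_BIG : Prop := ∀ (α : Type) [PartialOrder α],
  (∀ s : Set α, IsAntichain (· ≤ ·) s → s.Finite) → ∀ (κ : Cardinal.{0}), ℵ₀ ≤ κ →
  ∀ X : Set α, κ ≤ cd X → ∃ D ⊆ X, KLarge κ D ∨ KLargeU κ D

/-- KINC -/
def S_KINC : Prop := ∀ (α : Type) [PartialOrder α] (w : ℕ), Wd α w →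
  ∀ (κ : Cardinal.{0}), ℵ₀ ≤ κ → ∀ (S : Set α), KStar κ S → KStarU κ S →
  (∀ x ∈ S, cd (Inc S x) < κ) ∧ ∀ x ∈ S, ∀ y ∈ S, cd (Bt S x y) < κ

/-- The statement to be proved by induction on `κ`. -/
def QQ (κ : Cardinal.{0}) : Prop := ∀ (α : Type) [PartialOrder α] (w : ℕ), Wd α w →
  ∀ E : Set α, (∀ x ∈ E, cd (Inc E x) < κ) → HasSpine E

/-- Q0 -/
def S_Q0 : Prop := QQ ℵ₀

/-- QS -/
def S_QS : Prop := ∀ κ : Cardinal.{0}, ℵ₀ ≤ κ → QQ κ → QQ (Order.succ κ)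

/-! ## Statements, limit cardinals -/

/-- STPEX -/
def S_STPEX : Prop := ∀ (α : Type) [PartialOrder α] (w : ℕ), Wd α w →
  ∀ (κ : Cardinal.{0}), ℵ₀ ≤ κ → ∀ (E : Set α), ∀ x₀ ∈ E, cd (Inc E x₀) < κ →
  ∃ S, Stp κ x₀ E S

/-- FPROP -/
def S_FPROP : Prop := ∀ (α : Type) [PartialOrder α] (w : ℕ), Wd α w →
  ∀ (κ : Cardinal.{0}), ℵ₀ ≤ κ → ∀ (x₀ : α) (E S : Set α), FPiece κ x₀ E S →
  S ⊆ E ∧ x₀ ∈ S ∧ Cvx E S ∧ KStar κ S ∧ C3 κ x₀ E S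

/-- STPPROP -/
def S_STPPROP : Prop := ∀ (α : Type) [PartialOrder α] (w : ℕ), Wd α w →
  ∀ (κ : Cardinal.{0}), ℵ₀ ≤ κ → ∀ (x₀ : α) (E S : Set α), Stp κ x₀ E S →
  S ⊆ E ∧ x₀ ∈ S ∧ Cvx E S ∧ KStar κ S ∧ KStarU κ S ∧ C3 κ x₀ E S

/-- STPEXT -/
def S_STPEXT : Prop := ∀ (α : Type) [PartialOrder α] (w : ℕ), Wd α w →
  ∀ (κ : Cardinal.{0}), ℵ₀ ≤ κ → ∀ (x₀ : α) (E S : Set α), Stp κ x₀ E S →
  (∀ x ∈ E, cd (Inc E x) ≤ κ) → QQ (Order.succ κ) → Ext S E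

/-- ADMFIN -/
def S_ADMFIN : Prop := ∀ (α : Type) [PartialOrder α] (w : ℕ), Wd α w →
  ∀ (κ : Cardinal.{0}) (T : Set α) (x₀ : α), {S | Adm κ T x₀ S}.Finite

/-- LOW: the lower cut. -/
def S_LOW : Prop := ∀ (α : Type) [PartialOrder α] (w : ℕ), Wd α w →
  ∀ (κ κ' : Cardinal.{0}), ℵ₀ ≤ κ → κ ≤ κ' → ∀ (T UE DE E : Set α) (x₀ : α), x₀ ∈ E →
  E = UE ∩ DE → UE ⊆ T → DE ⊆ T → (∀ x ∈ UE, ∀ y ∈ T, x ≤ y → y ∈ UE) →
  (∀ x ∈ DE, ∀ y ∈ T, y ≤ x → y ∈ DE) → LCut κ' T x₀ UE →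
  ∀ (S₁ S : Set α) (G : Set (KGerm κ E)) (G' : Set (KGerm κ (dS S₁))),
    StpData κ x₀ E S₁ S G G' → LCut κ T x₀ (LwSet x₀ UE G G')

/-- UPP: the upper cut. -/
def S_UPP : Prop := ∀ (α : Type) [PartialOrder α] (w : ℕ), Wd α w →
  ∀ (κ κ' : Cardinal.{0}), ℵ₀ ≤ κ → κ ≤ κ' → ∀ (T UE DE E : Set α) (x₀ : α), x₀ ∈ E →
  E = UE ∩ DE → UE ⊆ T → DE ⊆ T → (∀ x ∈ UE, ∀ y ∈ T, x ≤ y → y ∈ UE) →
  (∀ x ∈ DE, ∀ y ∈ T, y ≤ x → y ∈ DE) → UCut κ' T x₀ DE →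
  ∀ (S₁ S : Set α) (G : Set (KGerm κ E)) (G' : Set (KGerm κ (dS S₁))),
    StpData κ x₀ E S₁ S G G' → UCut κ T x₀ (UpSet x₀ DE G G')

/-- ADMSTEP -/
def S_ADMSTEP : Prop := ∀ (α : Type) [PartialOrder α] (w : ℕ), Wd α w →
  ∀ (κ κ' : Cardinal.{0}), ℵ₀ ≤ κ → κ ≤ κ' → ∀ (T E S : Set α) (x₀ : α), x₀ ∈ E →
  Adm κ' T x₀ E → Stp κ x₀ E S → Adm κ T x₀ S

/-- A tower. -/
structure Tower {α : Type} [PartialOrder α] (θ κ₀ : Cardinal.{0}) (x₀ : α) (T : Set α)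
    (σ : Cardinal.{0} → Set α) : Prop where
  mem : ∀ κ, κ₀ ≤ κ → κ < θ → x₀ ∈ σ κ
  sub : ∀ κ, κ₀ ≤ κ → κ < θ → σ κ ⊆ T
  star : ∀ κ, κ₀ ≤ κ → κ < θ → KStar κ (σ κ) ∧ KStarU κ (σ κ)
  top : ∀ κ, κ₀ ≤ κ → κ < θ → C3 κ x₀ T (σ κ)
  mono : ∀ κ μ, κ₀ ≤ κ → κ < μ → μ < θ → σ κ ⊆ σ μ ∧ C3 κ x₀ (σ μ) (σ κ)
  step : ∀ κ, κ₀ ≤ κ → Order.succ κ < θ → Stp κ x₀ (σ (Order.succ κ)) (σ κ)

/-- TOWER -/
def S_TOWER : Prop := ∀ (α : Type) [PartialOrder α] (w : ℕ), Wd α w →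
  ∀ (θ κ₀ : Cardinal.{0}), ℵ₀ ≤ κ₀ → ∀ (T : Set α), ∀ x₀ ∈ T, cd (Inc T x₀) < κ₀ →
  ∃ σ : Cardinal.{0} → Set α, Tower θ κ₀ x₀ T σ

/-- GLUE -/
def S_GLUE : Prop := ∀ (α : Type) [PartialOrder α] (w : ℕ), Wd α w →
  ∀ (θ κ₀ : Cardinal.{0}), ℵ₀ ≤ κ₀ → κ₀ < θ → Order.IsSuccLimit θ → (∀ κ, ℵ₀ ≤ κ → κ < θ → QQ κ) →
  ∀ (T : Set α), KStar θ T → KStarU θ T → ∀ x₀ ∈ T,
  ∀ σ : Cardinal.{0} → Set α, Tower θ κ₀ x₀ T σ → HasSpine T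

/-- QL -/
def S_QL : Prop := ∀ θ : Cardinal.{0}, ℵ₀ < θ → Order.IsSuccLimit θ →
  (∀ κ, ℵ₀ ≤ κ → κ < θ → QQ κ) → QQ θ

/-- FULL -/
def S_FULL : Prop := ∀ (α : Type) [PartialOrder α] (w : ℕ), Wd α w →
  HasSpine (Set.univ : Set α)

/-- WID: posets of finite width are in the class. -/
def S_WID : Prop := ∀ (α : Type) [PartialOrder α] (w : ℕ), Pool.Agent.Y666.SP.Wd α w → Tm α

end Pool.Agent.Y666.SF
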