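import Pool.Agent.Y666.SF.Stm3

/-!
# Project SP, part 2: admissible sets (SP2-ADM: CEQ, ADMSTEP, ADMFIN), helper994
-/

set_option autoImplicit false

open Cardinal OrderDual
open Pool.Agent.Y666.SP

namespace Pool.Agent.Y666.SF.Y994

/-- CEQ: the piece is the intersection of its cuts. -/
theorem t_CEQ : S_CEQ := by
  intro α _ κ UE DE E x₀ hE S₁ S G G' D
  have hS : ∀ y, y ∈ S ↔ toDual y ∈ KPc G' (toDual x₀) := by
    intro y
    rw [← D.eq₂]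
    rfl
  have hS₁ : ∀ z : αᵒᵈ, z ∈ dS S₁ ↔ ofDual z ∈ KPc G x₀ := by
    intro z
    rw [← D.eq₁]
    rfl
  have hEm : ∀ y, y ∈ E ↔ y ∈ UE ∧ y ∈ DE := by
    intro y
    rw [hE]
    rfl
  ext y
  constructor
  · intro hy
    rw [hS] at hy
    obtain ⟨⟨hy1, hy2⟩, hy3⟩ := hy
    have hy1' := (hS₁ _).1 hy1
    obtain ⟨⟨hz1, hz2⟩, hz3⟩ := hy1'
    have hz1' := (hEm _).1 hz1
    refine ⟨⟨hz1'.1, ?_, ?_⟩, ⟨hz1'.2, ?_, ?_⟩⟩
    · intro g hg hx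
      exact ⟨y, (hz3 g hg).2 hx, le_rfl⟩
    · intro J hJ hx j hj
      rcases hy2 J hJ with h | h
      · exact absurd ((hy3 J hJ).1 h) hx
      · exact toDual_lt.1 (by simpa using h j hj)
    · intro g hg hx q hq
      rcases hz2 g hg with h | h
      · exact absurd ((hz3 g hg).1 h) hx
      · exact h q hq
    · intro J hJ hx
      exact ⟨toDual y, (hy3 J hJ).2 hx, le_rfl⟩
  · rintro ⟨⟨h1, h2, h3⟩, ⟨h4, h5, h6⟩⟩
    have hyE : y ∈ E := (hEm y).2 ⟨h1, h4⟩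
    have hy1 : toDual y ∈ dS S₁ := by
      rw [hS₁]
      refine ⟨⟨hyE, ?_⟩, ?_⟩
      · intro g hg
        by_cases hx : x₀ ∈ g.carrier
        · obtain ⟨q, hq, hqy⟩ := h2 g hg hx
          exact Or.inl (g.up q hq y hyE hqy)
        · exact Or.inr (h5 g hg hx)
      · intro g hg
        by_cases hx : x₀ ∈ g.carrier
        · obtain ⟨q, hq, hqy⟩ := h2 g hg hx
          exact ⟨fun _ => hx, fun _ => g.up q hq y hyE hqy⟩
        · exact ⟨fun h => absurd (h5 g hg hx y h) (lt_irrefl _), fun h => absurd h hx⟩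
    rw [hS]
    refine ⟨⟨hy1, ?_⟩, ?_⟩
    · intro J hJ
      by_cases hx : toDual x₀ ∈ J.carrier
      · obtain ⟨j, hj, hyj⟩ := h6 J hJ hx
        exact Or.inl (J.up j hj _ hy1 hyj)
      · exact Or.inr (fun j hj => h3 J hJ hx j hj)
    · intro J hJ
      by_cases hx : toDual x₀ ∈ J.carrier
      · obtain ⟨j, hj, hyj⟩ := h6 J hJ hx
        exact ⟨fun _ => hx, fun _ => J.up j hj _ hy1 hyj⟩
      · exact ⟨fun h => absurd (h3 J hJ hx _ h) (lt_irrefl _), fun h => absurd h hx⟩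

theorem lcut_prop {α : Type} [PartialOrder α] {κ : Cardinal.{0}} {T : Set α} {x₀ : α} {U : Set α}
    (h : LCut κ T x₀ U) : U ⊆ T ∧ ∀ x ∈ U, ∀ y ∈ T, x ≤ y → y ∈ U := by
  rcases h with rfl | ⟨F, _, rfl⟩ | ⟨J, _, rfl⟩
  · exact ⟨fun _ h => h, fun _ _ y hy _ => hy⟩
  · exact ⟨F.sub, F.up⟩
  · exact ⟨fun y hy => hy.1, fun x hx y hy hxy => ⟨hy, fun j hj => lt_of_lt_of_le (hx.2 j hj) hxy⟩⟩

/-- ADMSTEP -/
theorem t_ADMSTEP (h1 : S_LOW) (h2 : S_UPP) (h3 : S_CEQ) : S_ADMSTEP := by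
  intro α _ w hw κ κ' hκ hκκ' T E S x₀ hx₀ hA hS
  obtain ⟨U, D, hU, hD, hE⟩ := hA
  obtain ⟨S₁, G, G', hdat⟩ := hS
  obtain ⟨hU1, hU2⟩ := lcut_prop hU
  obtain ⟨hD1, hD2⟩ := lcut_prop hD
  have hD1' : D ⊆ T := fun x hx => hD1 (a := toDual x) hx
  have hD2' : ∀ x ∈ D, ∀ y ∈ T, y ≤ x → y ∈ D := fun x hx y hy hyx =>
    hD2 (toDual x) hx (toDual y) hy hyx
  exact ⟨LwSet x₀ U G G', UpSet x₀ D G G',
    h1 α w hw κ κ' hκ hκκ' T U D E x₀ hx₀ hE hU1 hD1' hU2 hD2' hU S₁ S G G' hdat,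
    h2 α w hw κ κ' hκ hκκ' T U D E x₀ hx₀ hE hU1 hD1' hU2 hD2' hD S₁ S G G' hdat,
    h3 α κ U D E x₀ hE S₁ S G G' hdat⟩

theorem wd_dual {α : Type} [PartialOrder α] {w : ℕ} (h : Wd α w) : Wd αᵒᵈ w := ⟨h.2, h.1⟩

theorem lcut_fin (h : S_KAC) {α : Type} [PartialOrder α] {w : ℕ} (hw : Wd α w)
    (κ : Cardinal.{0}) (T : Set α) (x₀ : α) : {U | LCut κ T x₀ U}.Finite := by
  have hF : {F | LowF κ T x₀ F}.Finite :=
    h α w hw κ T _ (fun a ha b hb => ha.2 b hb.1)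
  have hJ : {J | LowI κ T x₀ J}.Finite :=
    h αᵒᵈ w (wd_dual hw) κ (dS T) _ (fun a ha b hb => hb.2 a ha.1)
  refine ((Set.finite_singleton T).union ((hF.image (fun F => F.carrier)).union
    (hJ.image (fun J => {y | y ∈ T ∧ ∀ j ∈ J.carrier, ofDual j < y})))).subset ?_
  rintro U (rfl | ⟨F, hF, rfl⟩ | ⟨J, hJ, rfl⟩)
  · exact Or.inl rfl
  · exact Or.inr (Or.inl ⟨F, hF, rfl⟩)
  · exact Or.inr (Or.inr ⟨J, hJ, rfl⟩)

/-- ADMFIN -/
theorem t_ADMFIN (h : S_KAC) : S_ADMFIN := by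
  intro α _ w hw κ T x₀
  have h1 := lcut_fin h hw κ T x₀
  have h2 : {D | UCut κ T x₀ D}.Finite := by
    refine (lcut_fin h (wd_dual hw) κ (dS T) (toDual x₀)).preimage (f := dS) ?_
    intro D _ D' _ hDD
    ext x
    have := Set.ext_iff.1 hDD (toDual x)
    exact this
  refine (h1.image2 (fun U D => U ∩ D) h2).subset ?_
  rintro S ⟨U, D, hU, hD, rfl⟩
  exact ⟨U, hU, D, hD, rfl⟩

end Pool.Agent.Y666.SF.Y994
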