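import Pool.Agent.Y666.SF.Dir
import Pool.Agent.Y211.SP.Lim

/-!
# PROJECT SF: the block BET (adapted from helper211)
-/

set_option autoImplicit false
set_option linter.dupNamespace false

open Cardinal OrderDual

namespace Pool.Agent.Y666.SF.Y666

open Pool.Agent.Y666.SP Pool.Agent.Y211.SP

theorem t_KBET (hLIM : S_KLIM) (hAC : S_AC) : S_KBET := by
  classical
  intro α _ w hw κ _ E G hS g hg h hh hgh
  by_contra hcon
  rw [not_le] at hcon
  have hsub : ∀ S : Set α, S ⊆ {b | b ∈ KBB G ∧ b ∈ g.carrier ∧ ∀ q ∈ h.carrier, b < q} →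
      ¬ κ ≤ cd S := by
    intro S hSs hκ
    exact absurd (hκ.trans (Cardinal.mk_le_mk_of_subset hSs)) (not_le.2 hcon)
  let St : Type := {x : KGerm κ E × KGerm κ E // x.1 ∈ G ∧ x.2 ∈ G ∧ kll x.1 x.2 ∧
    x.1.carrier ⊆ g.carrier ∧ h.carrier ⊆ x.2.carrier}
  have step : ∀ S : St, ∃ p : α × St, p.1 ∈ S.1.1.carrier ∧ (∀ q ∈ S.1.2.carrier, p.1 < q) ∧
      p.2.1.1.carrier ⊆ S.1.1.carrier ∧ S.1.2.carrier ⊆ p.2.1.2.carrier ∧
      ∀ q ∈ p.2.1.1.carrier, (∀ r ∈ p.2.1.2.carrier, q < r) → ¬ p.1 ≤ q ∧ ¬ q ≤ p.1 := by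
    rintro ⟨⟨g', h'⟩, hg', hh', hgh', h1, h2⟩
    replace hg' : g' ∈ G := hg'
    replace hh' : h' ∈ G := hh'
    replace hgh' : kll g' h' := hgh'
    replace h1 : g'.carrier ⊆ g.carrier := h1
    replace h2 : h.carrier ⊆ h'.carrier := h2
    obtain ⟨p0, hp0, hpq0'⟩ := id hgh'
    obtain ⟨p, hp, hpp0, hpB⟩ : ∃ p ∈ g'.carrier, p ≤ p0 ∧ p ∉ KBB G := by
      by_contra hno
      push Not at hno
      refine hsub {y | y ∈ g'.carrier ∧ y ≤ p0} ?_ (g'.large p0 hp0)
      rintro y ⟨hy, hyp⟩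
      exact ⟨hno y hy hyp, h1 hy, fun q hq => lt_of_le_of_lt hyp (hpq0' q (h2 hq))⟩
    have hpq : ∀ q ∈ h'.carrier, p < q := fun q hq => lt_of_le_of_lt hpp0 (hpq0' q hq)
    have hpE : p ∈ E := g'.sub hp
    have hpB2 : ∃ k ∈ G, p ∉ k.carrier ∧ ∃ q0 ∈ k.carrier, ¬ p < q0 := by
      by_contra hno
      push Not at hno
      apply hpB
      refine ⟨hpE, ?_⟩
      intro k hk
      by_cases hpk : p ∈ k.carrier
      · exact Or.inl hpk
      · exact Or.inr (hno k hk hpk)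
    obtain ⟨k, hk, hpk, q0, hq0, hpq0⟩ := hpB2
    have hg'k : kll g' k := by
      rcases hS.ch g' hg' k hk with e | e | e
      · rw [e] at hp; exact absurd hp hpk
      · exact e
      · exact absurd (sub_of_kll e hp) hpk
    have hkh' : kll k h' := by
      rcases hS.ch k hk h' hh' with e | e | e
      · rw [e] at hq0; exact absurd (hpq q0 hq0) hpq0
      · exact e
      · exact absurd (hpq q0 (sub_of_kll e hq0)) hpq0
    rcases hLIM α κ E G hS k hk with ⟨x, hxB, hxk, hx⟩ | hR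
    · exfalso
      have h3 : x ∉ h'.carrier := hx h' hh' hkh'
      have h4 : ∀ q ∈ h'.carrier, x < q := (hxB.2 h' hh').resolve_left h3
      refine hsub {y | y ∈ k.carrier ∧ y ≤ x} ?_ (k.large x hxk)
      rintro y ⟨hy, hyx⟩
      refine ⟨⟨k.sub hy, ?_⟩, h1 (sub_of_kll hg'k hy),
        fun q hq => lt_of_le_of_lt hyx (h4 q (h2 hq))⟩
      intro l hl
      rcases hS.ch l hl k hk with e | e | e
      · left; rw [e]; exact hy
      · left; exact sub_of_kll e hy
      · right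
        intro q hq
        exact lt_of_le_of_lt hyx ((hxB.2 l hl).resolve_left (hx l hl e) q hq)
    · obtain ⟨h'', hh'', hkh'', hq0''⟩ := hR q0 hq0
      have hh''h' : kll h'' h' := by
        rcases hS.ch h'' hh'' h' hh' with e | e | e
        · rw [e] at hq0''; exact absurd (hpq q0 hq0'') hpq0
        · exact e
        · exact absurd (hpq q0 (sub_of_kll e hq0'')) hpq0
      refine ⟨(p, ⟨(k, h''), hk, hh'', hkh'', (sub_of_kll hg'k).trans h1,
        h2.trans (sub_of_kll hh''h')⟩), hp, hpq, sub_of_kll hg'k, sub_of_kll hh''h', ?_⟩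
      intro q hq hqr
      refine ⟨fun hle => ?_, fun hle => ?_⟩
      · exact hpq0 (lt_of_le_of_lt hle (hqr q0 hq0''))
      · exact hpk (k.up q hq p hpE hle)
  choose p hp1 hp2 hp3 hp4 hp5 using step
  let S : ℕ → St := fun n => Nat.rec ⟨(g, h), hg, hh, hgh, subset_rfl, subset_rfl⟩
    (fun _ d => (p d).2) n
  have hSs : ∀ n, S (n + 1) = (p (S n)).2 := fun n => rfl
  have hS1 : Antitone (fun n => (S n).1.1.carrier) := by
    apply antitone_nat_of_succ_le
    intro n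
    show (S (n + 1)).1.1.carrier ⊆ (S n).1.1.carrier
    rw [hSs]
    exact hp3 _
  have hS2 : Monotone (fun n => (S n).1.2.carrier) := by
    apply monotone_nat_of_le_succ
    intro n
    show (S n).1.2.carrier ⊆ (S (n + 1)).1.2.carrier
    rw [hSs]
    exact hp4 _
  refine no_seq (hAC α w hw) (fun n => (p (S n)).1) ?_
  intro m n hmn
  have h1 : (S n).1.1.carrier ⊆ (p (S m)).2.1.1.carrier := by
    rw [← hSs]
    exact hS1 (show m + 1 ≤ n from hmn)
  have h2 : (p (S m)).2.1.2.carrier ⊆ (S n).1.2.carrier := by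
    rw [← hSs]
    exact hS2 (show m + 1 ≤ n from hmn)
  exact hp5 (S m) _ (h1 (hp1 (S n))) (fun r hr => hp2 (S n) r (h2 hr))

end Pool.Agent.Y666.SF.Y666
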