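import Pool.Agent.Y666.SF.Stm3

/-!
# PROJECT SF: the block DIR
-/

set_option autoImplicit false
set_option linter.dupNamespace false

open Cardinal OrderDual

namespace Pool.Agent.Y666.SF.Y666

open Pool.Agent.Y666.SP

/-- An infinite sequence of pairwise incomparable elements contradicts the chain condition. -/
theorem no_seq {α : Type} [PartialOrder α] (hAC : ∀ s : Set α, IsAntichain (· ≤ ·) s → s.Finite)
    (F : ℕ → α) (h : ∀ m n, m < n → ¬ F m ≤ F n ∧ ¬ F n ≤ F m) : False := by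
  have hinjF : Function.Injective F := by
    intro m n hmn
    rcases lt_trichotomy m n with h' | h' | h'
    · exact absurd hmn.le (h m n h').1
    · exact h'
    · exact absurd hmn.ge (h n m h').1
  have hanti : IsAntichain (· ≤ ·) (Set.range F) := by
    rintro _ ⟨m, rfl⟩ _ ⟨n, rfl⟩ hne hle
    rcases lt_trichotomy m n with h' | h' | h'
    · exact (h m n h').1 hle
    · exact hne (by rw [h'])
    · exact (h n m h').2 hle
  exact Set.infinite_range_of_injective hinjF (hAC _ hanti)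

/-- Below every element there is one below which any two elements are compatible. -/
theorem exists_atomic {α : Type} [PartialOrder α]
    (hAC : ∀ s : Set α, IsAntichain (· ≤ ·) s → s.Finite) (Z : Set α) :
    ∀ d ∈ Z, ∃ y ∈ Z, y ≤ d ∧ ∀ e ∈ Z, e ≤ y → ∀ e' ∈ Z, e' ≤ y → ∃ z ∈ Z, z ≤ e ∧ z ≤ e' := by
  intro d0 hd0
  by_contra hcon
  have hsp : ∀ y : {y : α // y ∈ Z ∧ y ≤ d0}, ∃ p : {y : α // y ∈ Z ∧ y ≤ d0} ×
      {y : α // y ∈ Z ∧ y ≤ d0}, p.1.1 ≤ y.1 ∧ p.2.1 ≤ y.1 ∧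
        ¬ ∃ z ∈ Z, z ≤ p.1.1 ∧ z ≤ p.2.1 := by
    rintro ⟨y, hy, hyd⟩
    by_contra h
    apply hcon
    refine ⟨y, hy, hyd, fun e he hey e' he' hey' => ?_⟩
    by_contra h'
    exact h ⟨(⟨e, he, hey.trans hyd⟩, ⟨e', he', hey'.trans hyd⟩), hey, hey', h'⟩
  choose p hp1 hp2 hp3 using hsp
  let D : ℕ → {y : α // y ∈ Z ∧ y ≤ d0} := fun n => Nat.rec ⟨d0, hd0, le_rfl⟩ (fun _ d => (p d).2) n
  have hDs : ∀ n, D (n + 1) = (p (D n)).2 := fun n => rfl
  have hDanti : Antitone (fun n => (D n).1) := by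
    apply antitone_nat_of_succ_le
    intro n
    show (D (n + 1)).1 ≤ (D n).1
    rw [hDs]
    exact hp2 _
  refine no_seq hAC (fun n => (p (D n)).1.1) ?_
  intro m n hmn
  have h1 : (p (D n)).1.1 ≤ (p (D m)).2.1 := by
    refine (hp1 _).trans ?_
    have := hDanti (show m + 1 ≤ n from hmn)
    rw [← hDs]
    exact this
  refine ⟨fun h => ?_, fun h => ?_⟩
  · exact hp3 (D m) ⟨_, (p (D m)).1.2.1, le_rfl, h.trans h1⟩
  · exact hp3 (D m) ⟨_, (p (D n)).1.2.1, h, h1⟩

theorem t_DIR : S_DIR := by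
  classical
  intro α _ hAC Z
  let comp : α → α → Prop := fun d e => ∃ z ∈ Z, z ≤ d ∧ z ≤ e
  let atomic : α → Prop := fun y => ∀ e ∈ Z, e ≤ y → ∀ e' ∈ Z, e' ≤ y → comp e e'
  have hat := exists_atomic hAC Z
  obtain ⟨M, hM⟩ := zorn_subset {M : Set α | M ⊆ Z ∧ (∀ y ∈ M, atomic y) ∧
      ∀ y ∈ M, ∀ y' ∈ M, y ≠ y' → ¬ comp y y'} (by
    intro c hc hch
    refine ⟨⋃₀ c, ⟨?_, ?_, ?_⟩, fun s hs => Set.subset_sUnion_of_mem hs⟩
    · exact Set.sUnion_subset fun s hs => (hc hs).1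
    · rintro y ⟨s, hs, hy⟩
      exact (hc hs).2.1 y hy
    · rintro y ⟨s, hs, hy⟩ y' ⟨s', hs', hy'⟩ hne
      rcases hch.total hs hs' with h | h
      · exact (hc hs').2.2 y (h hy) y' hy' hne
      · exact (hc hs).2.2 y hy y' (h hy') hne)
  have hM1 : M ⊆ Z := hM.1.1
  have hMfin : M.Finite := by
    apply hAC
    intro a ha b hb hne hle
    exact hM.1.2.2 a ha b hb hne ⟨a, hM1 ha, le_rfl, hle⟩
  have hfin : Finite M := hMfin.to_subtype
  obtain ⟨n, ⟨e⟩⟩ := Finite.exists_equiv_fin M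
  refine ⟨n, fun i => {d | d ∈ Z ∧ comp d (e.symm i).1}, fun i d hd => hd.1, ?_, ?_⟩
  · rintro i a ⟨haZ, z, hz, hza, hzy⟩ b ⟨hbZ, z', hz', hzb, hzy'⟩
    obtain ⟨u, hu, hu1, hu2⟩ := hM.1.2.1 _ (e.symm i).2 z hz hzy z' hz' hzy'
    exact ⟨u, ⟨hu, u, hu, le_rfl, hu1.trans hzy⟩, hu1.trans hza, hu2.trans hzb⟩
  · intro d hd
    obtain ⟨y, hy, hyd, hya⟩ := hat d hd
    have : ∃ y' ∈ M, comp y y' := by
      by_cases hyM : y ∈ M
      · exact ⟨y, hyM, y, hy, le_rfl, le_rfl⟩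
      · by_contra hcon
        have hcon' : ∀ y' ∈ M, ¬ comp y y' := fun y' hy' h => hcon ⟨y', hy', h⟩
        have hmem : insert y M ∈ {M : Set α | M ⊆ Z ∧ (∀ y ∈ M, atomic y) ∧
            ∀ y ∈ M, ∀ y' ∈ M, y ≠ y' → ¬ comp y y'} := by
          refine ⟨?_, ?_, ?_⟩
          · intro z hz
            rcases hz with rfl | hz
            · exact hy
            · exact hM1 hz
          · intro z hz
            rcases hz with rfl | hz
            · exact hya
            · exact hM.1.2.1 z hz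
          · intro a ha b hb hne hab
            rcases ha with rfl | ha
            · rcases hb with rfl | hb
              · exact hne rfl
              · exact hcon' b hb hab
            · rcases hb with rfl | hb
              · obtain ⟨z, hz, h1, h2⟩ := hab
                exact hcon' a ha ⟨z, hz, h2, h1⟩
              · exact hM.1.2.2 a ha b hb hne hab
        exact hyM (hM.2 hmem (Set.subset_insert y M) (Set.mem_insert y M))
    obtain ⟨y', hy', z, hz, hz1, hz2⟩ := this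
    refine ⟨e ⟨y', hy'⟩, hd, z, hz, hz1.trans hyd, ?_⟩
    rw [Equiv.symm_apply_apply]
    exact hz2

end Pool.Agent.Y666.SF.Y666
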