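import Mathlib
import Pool.Agent.Y666.SF.Pc

/-!
# Project SP, part 2: duality and the two-stage reduction (helper433)
-/

set_option autoImplicit false

namespace Pool.Agent.Y666.SF.Y433

open Pool.Agent.Y666.SP Cardinal OrderDual

section dual

variable {α : Type}

theorem mem_dS {S : Set α} {x : αᵒᵈ} : x ∈ dS S ↔ ofDual x ∈ S := Iff.rfl

theorem toDual_mem_dS {S : Set α} {x : α} : toDual x ∈ dS S ↔ x ∈ S := Iff.rfl

theorem cd_dS (S : Set α) : cd (dS S) = cd S := rfl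

variable [PartialOrder α]

theorem inc_dual (E : Set α) (x : α) : Inc (dS E) (toDual x) = dS (Inc E x) := by
  ext y
  constructor
  · rintro ⟨h1, h2, h3⟩
    exact ⟨h1, h3, h2⟩
  · rintro ⟨h1, h2, h3⟩
    exact ⟨h1, h3, h2⟩

theorem cd_inc_dual (E : Set α) (x : α) : cd (Inc (dS E) (toDual x)) = cd (Inc E x) := by
  rw [inc_dual, cd_dS]

theorem bt_dual (E : Set α) (x y : α) : Bt (dS E) (toDual y) (toDual x) = dS (Bt E x y) := by
  ext z
  constructor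
  · rintro ⟨h1, h2, h3⟩
    exact ⟨h1, h3, h2⟩
  · rintro ⟨h1, h2, h3⟩
    exact ⟨h1, h3, h2⟩

theorem cd_bt_dual (E : Set α) (x y : α) :
    cd (Bt (dS E) (toDual y) (toDual x)) = cd (Bt E x y) := by
  rw [bt_dual, cd_dS]

theorem chain_dual {C : Set α} : IsChain (· ≤ ·) (dS C) ↔ IsChain (· ≤ ·) C := by
  constructor
  · intro h a ha b hb hab
    exact (h (x := toDual a) ha (y := toDual b) hb (fun h' => hab (toDual.injective h'))).symm
  · intro h a ha b hb hab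
    exact (h (x := ofDual a) ha (y := ofDual b) hb (fun h' => hab (ofDual.injective h'))).symm

theorem spine_dual {S C : Set α} {f : α → α} :
    Spine S C f ↔ Spine (dS S) (dS C) (toDual ∘ f ∘ ofDual) := by
  constructor
  · rintro ⟨h1, h2, h3, h4, h5⟩
    refine ⟨fun x hx => h1 hx, chain_dual.2 h2, fun x hx => h3 _ hx,
      fun c hc => congrArg toDual (h4 _ hc), fun x hx y hy hxy hlt => ?_⟩
    exact h5 (ofDual y) hy (ofDual x) hx (toDual.injective hxy).symm hlt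
  · rintro ⟨h1, h2, h3, h4, h5⟩
    refine ⟨fun x hx => h1 (a := toDual x) hx, chain_dual.1 h2, fun x hx => h3 (toDual x) hx,
      fun c hc => congrArg ofDual (h4 (toDual c) hc), fun x hx y hy hxy hlt => ?_⟩
    exact h5 (toDual y) hy (toDual x) hx (congrArg toDual hxy.symm) (toDual_lt_toDual.2 hlt)

theorem spine_dual' {S : Set α} {C : Set αᵒᵈ} {f : αᵒᵈ → αᵒᵈ} (h : Spine (dS S) C f) :
    Spine S (toDual ⁻¹' C) (ofDual ∘ f ∘ toDual) :=
  spine_dual.2 h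

theorem hasSpine_dual {S : Set α} : HasSpine (dS S) ↔ HasSpine S := by
  rw [hasSpine_iff, hasSpine_iff]
  constructor
  · rintro ⟨C, f, h⟩
    exact ⟨_, _, spine_dual' h⟩
  · rintro ⟨C, f, h⟩
    exact ⟨_, _, spine_dual.1 h⟩

theorem klarge_dual {κ : Cardinal.{0}} {D : Set α} : KLarge κ (dS D) ↔ KLargeU κ D := by
  constructor
  · rintro ⟨⟨d, hd⟩, h2, h3⟩
    refine ⟨⟨ofDual d, hd⟩, fun a ha b hb => ?_, fun x hx => h3 (toDual x) hx⟩
    obtain ⟨z, hz, hz1, hz2⟩ := h2 (toDual a) ha (toDual b) hb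
    exact ⟨ofDual z, hz, hz1, hz2⟩
  · rintro ⟨⟨d, hd⟩, h2, h3⟩
    refine ⟨⟨toDual d, hd⟩, fun a ha b hb => ?_, fun x hx => h3 (ofDual x) hx⟩
    obtain ⟨z, hz, hz1, hz2⟩ := h2 (ofDual a) ha (ofDual b) hb
    exact ⟨toDual z, hz, hz1, hz2⟩

theorem klargeU_dual {κ : Cardinal.{0}} {D : Set α} : KLargeU κ (dS D) ↔ KLarge κ D := by
  constructor
  · rintro ⟨⟨d, hd⟩, h2, h3⟩
    refine ⟨⟨ofDual d, hd⟩, fun a ha b hb => ?_, fun x hx => h3 (toDual x) hx⟩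
    obtain ⟨z, hz, hz1, hz2⟩ := h2 (toDual a) ha (toDual b) hb
    exact ⟨ofDual z, hz, hz1, hz2⟩
  · rintro ⟨⟨d, hd⟩, h2, h3⟩
    refine ⟨⟨toDual d, hd⟩, fun a ha b hb => ?_, fun x hx => h3 (ofDual x) hx⟩
    obtain ⟨z, hz, hz1, hz2⟩ := h2 (ofDual a) ha (ofDual b) hb
    exact ⟨toDual z, hz, hz1, hz2⟩

theorem kstar_dual {κ : Cardinal.{0}} {S : Set α} : KStar κ (dS S) ↔ KStarU κ S := by
  constructor
  · intro h D hD hDl x hx
    obtain ⟨d, hd, hdx⟩ := h (dS D) (fun y hy => hD hy) (klarge_dual.2 hDl) (toDual x) hx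
    exact ⟨ofDual d, hd, hdx⟩
  · intro h D hD hDl x hx
    obtain ⟨d, hd, hdx⟩ := h (toDual ⁻¹' D) (fun y hy => hD hy)
      ((klarge_dual (D := toDual ⁻¹' D)).1 hDl) (ofDual x) hx
    exact ⟨toDual d, hd, hdx⟩

theorem kstarU_dual {κ : Cardinal.{0}} {S : Set α} : KStarU κ (dS S) ↔ KStar κ S := by
  constructor
  · intro h D hD hDl x hx
    obtain ⟨d, hd, hdx⟩ := h (dS D) (fun y hy => hD hy) (klargeU_dual.2 hDl) (toDual x) hx
    exact ⟨ofDual d, hd, hdx⟩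
  · intro h D hD hDl x hx
    obtain ⟨d, hd, hdx⟩ := h (toDual ⁻¹' D) (fun y hy => hD hy)
      ((klargeU_dual (D := toDual ⁻¹' D)).1 hDl) (ofDual x) hx
    exact ⟨toDual d, hd, hdx⟩

theorem kstar_mono {κ : Cardinal.{0}} {S T : Set α} (h : KStar κ T) (hS : S ⊆ T) : KStar κ S :=
  fun D hD hDl x hx => h D (hD.trans hS) hDl x (hS hx)

theorem kstarU_mono {κ : Cardinal.{0}} {S T : Set α} (h : KStarU κ T) (hS : S ⊆ T) :
    KStarU κ S :=
  fun D hD hDl x hx => h D (hD.trans hS) hDl x (hS hx)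

theorem wd_dual {w : ℕ} (hw : Wd α w) : Wd αᵒᵈ w := ⟨hw.2, hw.1⟩

theorem cd_mono {S T : Set α} (h : S ⊆ T) : cd S ≤ cd T := mk_le_mk_of_subset h

theorem inc_mono {S T : Set α} (h : S ⊆ T) (x : α) : Inc S x ⊆ Inc T x :=
  fun _ hy => ⟨h hy.1, hy.2⟩

end dual

theorem exists_ksel (h1 : S_SEL) (h2 : S_KSYS) {α : Type} [PartialOrder α] {w : ℕ}
    (hw : Wd α w) (κ : Cardinal.{0}) (E : Set α) : ∃ G : Set (KGerm κ E), KSel G := by
  obtain ⟨G, a, b, c⟩ := h1 (KGerm κ E) kll (h2 α w hw κ E)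
  exact ⟨G, a, b, c⟩

theorem red2 (h1 : S_SEL) (h2 : S_KSYS) (h3 : S_KPC) : S_RED2 := by
  intro α _ w hw κ hκ E hE hst
  obtain ⟨G, hG⟩ := exists_ksel h1 h2 hw κ E
  refine (h3 α w hw κ hκ E hE G hG ?_).2
  intro S hS hSst
  rw [← hasSpine_dual]
  obtain ⟨G', hG'⟩ := exists_ksel h1 h2 (wd_dual hw) κ (dS S)
  refine (h3 αᵒᵈ w (wd_dual hw) κ hκ (dS S) ?_ G' hG' ?_).2
  · intro x hx
    have h4 : cd (Inc (dS S) x) = cd (Inc S (ofDual x)) := cd_inc_dual S (ofDual x)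
    rw [h4]
    exact (cd_mono (inc_mono hS _)).trans (hE _ (hS hx))
  · intro S' hS' hS'st
    have h5 : HasSpine (toDual ⁻¹' S' : Set α) := by
      have hsub : (toDual ⁻¹' S' : Set α) ⊆ S := fun y hy => hS' hy
      refine hst _ (hsub.trans hS) (kstar_mono hSst hsub) ?_
      exact (kstar_dual (S := toDual ⁻¹' S')).1 hS'st
    exact hasSpine_dual.2 h5

end Pool.Agent.Y666.SF.Y433
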