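import Pool.Agent.Y666.SF.Stm3
import Pool.Agent.Y585.SP.Coi

/-!
# PROJECT SF: the block FREE
-/

set_option autoImplicit false
set_option linter.dupNamespace false

open Cardinal OrderDual

namespace Pool.Agent.Y666.SF.Y666

open Pool.Agent.Y666.SP Pool.Agent.Y585.SP

theorem low_bd {α : Type} [PartialOrder α] {g : Set α} (hgne : g.Nonempty)
    (hgdir : ∀ x ∈ g, ∀ y ∈ g, ∃ z ∈ g, z ≤ x ∧ z ≤ y) (s : Finset α) (hs : ∀ x ∈ s, x ∈ g) :
    ∃ z ∈ g, ∀ x ∈ s, z ≤ x := by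
  classical
  induction s using Finset.induction_on with
  | empty => exact ⟨hgne.choose, hgne.choose_spec, fun x hx => absurd hx (Finset.notMem_empty x)⟩
  | insert a s _ ih =>
    obtain ⟨z, hz, hzs⟩ := ih (fun x hx => hs x (Finset.mem_insert_of_mem hx))
    obtain ⟨z', hz', h1, h2⟩ := hgdir z hz a (hs a (Finset.mem_insert_self _ _))
    refine ⟨z', hz', fun x hx => ?_⟩
    rcases Finset.mem_insert.1 hx with e | e
    · rw [e]; exact h2
    · exact h1.trans (hzs x e)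

theorem cd_biUnion_lt {α : Type} {κ : Cardinal.{0}} (hκ : ℵ₀ ≤ κ) (s : Finset α)
    (S : α → Set α) (hS : ∀ j ∈ s, cd (S j) < κ) : cd (⋃ j ∈ s, S j) < κ := by
  classical
  induction s using Finset.induction_on with
  | empty =>
    have h0 : cd (⋃ j ∈ (∅ : Finset α), S j) = 0 := by
      have : (⋃ j ∈ (∅ : Finset α), S j) = ∅ := by simp
      rw [this]; exact Cardinal.mk_eq_zero _
    rw [h0]
    exact Cardinal.aleph0_pos.trans_le hκ
  | insert a s _ ih =>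
    rw [Finset.set_biUnion_insert]
    exact cd_union_lt hκ (hS a (Finset.mem_insert_self _ _))
      (ih (fun j hj => hS j (Finset.mem_insert_of_mem hj)))

/-- The combinatorial core. -/
theorem key {α : Type} [PartialOrder α] (hAC : ∀ s : Set α, IsAntichain (· ≤ ·) s → s.Finite)
    (hFF : FF α) (hDIR : S_DIR) {κ : Cardinal.{0}} (hκ : ℵ₀ ≤ κ) (g A : Set α) (zf : α → α)
    (hgne : g.Nonempty) (hgdir : ∀ x ∈ g, ∀ y ∈ g, ∃ z ∈ g, z ≤ x ∧ z ≤ y)
    (hinj : Set.InjOn zf A) (hzg : ∀ c ∈ A, zf c ∈ g)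
    (hbig : ∀ z ∈ g, κ ≤ cd {c | c ∈ A ∧ c ≤ z})
    (hst : ∀ c ∈ A, ∀ y, c ≤ y → y ≤ zf c → y = zf c) :
    ∃ D ⊆ zf '' A, KLarge κ D ∧ ∀ p ∈ g, ∃ c ∈ A, c ≤ p ∧ zf c ∈ D := by
  classical
  set Z : Set α := zf '' A with hZ
  have hZg : Z ⊆ g := by rintro _ ⟨c, hc, rfl⟩; exact hzg c hc
  let R : Set α → Prop := fun D => ∀ z ∈ g, κ ≤ cd {c | c ∈ A ∧ c ≤ z ∧ zf c ∈ D}
  have hRmono : ∀ D D', D ⊆ D' → R D → R D' := fun D D' h hR z hz =>
    (hR z hz).trans (cd_mono fun c hc => ⟨hc.1, hc.2.1, h hc.2.2⟩)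
  have hRne : ∀ D, R D → ∀ p ∈ g, ∃ c ∈ A, c ≤ p ∧ zf c ∈ D := by
    intro D hR p hp
    obtain ⟨c, hc⟩ := nonempty_of_cd hκ (hR p hp)
    exact ⟨c, hc.1, hc.2.1, hc.2.2⟩
  have hRun : ∀ (n : ℕ) (Di : Fin n → Set α) (D : Set α), R D → (∀ z ∈ D, ∃ i, z ∈ Di i) →
      ∃ i, R (Di i) := by
    intro n Di D hR hcov
    by_contra hcon
    have hbad : ∀ j : Fin n, ∃ z ∈ g, cd {c | c ∈ A ∧ c ≤ z ∧ zf c ∈ Di j} < κ := by
      intro j
      by_contra h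
      apply hcon
      refine ⟨j, fun z hz => ?_⟩
      by_contra h'
      exact h ⟨z, hz, not_le.1 h'⟩
    choose zz hzz1 hzz2 using hbad
    obtain ⟨z, hz, hzs⟩ := low_bd hgne hgdir (Finset.univ.image zz) (by
      intro x hx
      obtain ⟨j, -, rfl⟩ := Finset.mem_image.1 hx
      exact hzz1 j)
    have hU := cd_iUnion_lt hκ (fun j => {c | c ∈ A ∧ c ≤ zz j ∧ zf c ∈ Di j}) hzz2 Finset.univ
    refine absurd ((hR z hz).trans (cd_mono ?_)) (not_le.2 hU)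
    rintro c ⟨hcA, hcz, hcD⟩
    obtain ⟨i, hi⟩ := hcov _ hcD
    rw [Set.mem_iUnion₂]
    exact ⟨i, Finset.mem_univ _, hcA,
      hcz.trans (hzs _ (Finset.mem_image_of_mem _ (Finset.mem_univ _))), hi⟩
  let good : Set α → Prop := fun D => D ⊆ Z ∧ R D ∧ DirectedOn (· ≥ ·) D ∧
    ∀ d ∈ D, ∀ z ∈ Z, d ≤ z → z ∈ D
  have h1 : ∀ D', D' ⊆ Z → R D' → (∀ d ∈ D', ∀ z ∈ Z, d ≤ z → z ∈ D') →
      ∃ D, D ⊆ D' ∧ good D := by
    intro D' hD' hR hup
    obtain ⟨n, Di, hsub, hdir, hcov⟩ := hDIR α hAC D'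
    obtain ⟨i, hi⟩ := hRun n Di D' hR hcov
    refine ⟨{z | z ∈ Z ∧ ∃ d ∈ Di i, d ≤ z}, ?_, fun z hz => hz.1, ?_, ?_, ?_⟩
    · rintro z ⟨hz, d, hd, hdz⟩
      exact hup d (hsub i hd) z hz hdz
    · exact hRmono _ _ (fun d hd => ⟨hD' (hsub i hd), d, hd, le_rfl⟩) hi
    · rintro a ⟨_, d, hd, hda⟩ b ⟨_, e, he, heb⟩
      obtain ⟨m, hm, hmd, hme⟩ := hdir i d hd e he
      exact ⟨m, ⟨hD' (hsub i hm), m, hm, le_rfl⟩, le_trans hmd hda, le_trans hme heb⟩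
    · rintro d ⟨_, e, he, hed⟩ z hz hdz
      exact ⟨hz, e, he, hed.trans hdz⟩
  have h2 : {D | good D}.Finite := by
    have hs : ({F : Flt α | ∃ D, good D ∧ F.carrier = {y | ∃ d ∈ D, d ≤ y}}).Finite := by
      apply hFF
      rintro F ⟨D, hD, hF⟩ F' ⟨D', hD', hF'⟩ ⟨p, hp, hpq⟩
      rw [hF] at hp
      obtain ⟨d, hd, hdp⟩ := hp
      obtain ⟨c, hcA, hcd, hcD⟩ := hRne D' hD'.2.1 d (hZg (hD.1 hd))
      have hlt : p < zf c := hpq (zf c) (by rw [hF']; exact ⟨zf c, hcD, le_rfl⟩)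
      exact absurd (hst c hcA p (hcd.trans hdp) hlt.le) hlt.ne
    refine (hs.image (fun F => F.carrier ∩ Z)).subset ?_
    intro D hD
    obtain ⟨c, hcA, -, hcD⟩ := hRne D hD.2.1 hgne.choose hgne.choose_spec
    let F : Flt α :=
      { carrier := {y | ∃ d ∈ D, d ≤ y}
        nonempty := ⟨zf c, zf c, hcD, le_rfl⟩
        up := by
          rintro x ⟨d, hd, hdx⟩ y hxy
          exact ⟨d, hd, hdx.trans hxy⟩
        dir := by
          rintro x ⟨d, hd, hdx⟩ y ⟨e, he, hey⟩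
          obtain ⟨m, hm, hmd, hme⟩ := hD.2.2.1 d hd e he
          exact ⟨m, ⟨m, hm, le_rfl⟩, le_trans hmd hdx, le_trans hme hey⟩ }
    refine ⟨F, ⟨D, hD, rfl⟩, ?_⟩
    ext z
    constructor
    · rintro ⟨⟨d, hd, hdz⟩, hz⟩
      exact hD.2.2.2 d hd z hz hdz
    · intro hz
      exact ⟨⟨z, hz, le_rfl⟩, hD.1 hz⟩
  have hRZ : R Z := by
    intro z hz
    refine (hbig z hz).trans (cd_mono ?_)
    rintro c ⟨hcA, hcz⟩
    exact ⟨hcA, hcz, c, hcA, rfl⟩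
  obtain ⟨D0, -, hD0⟩ := h1 Z subset_rfl hRZ (fun d _ z hz _ => hz)
  obtain ⟨D, hDmin⟩ := h2.exists_minimal ⟨D0, hD0⟩
  have hD : good D := hDmin.1
  have hlarge : ∀ y ∈ D, κ ≤ cd {z | z ∈ D ∧ z ≤ y} := by
    intro y0 hy0
    by_contra hy0'
    rw [not_le] at hy0'
    let NF : Set α := {y | y ∈ D ∧ cd {z | z ∈ D ∧ z ≤ y} < κ}
    have hNF : ¬ R NF := by
      intro hR
      obtain ⟨F, hF1, hF2⟩ := exists_seq_of_forall_finset_exists (fun y => y ∈ NF)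
        (fun x y => ¬ x ≤ y ∧ ¬ y ≤ x) (by
          intro s hs
          obtain ⟨z, hz, hzs⟩ := low_bd hgne hgdir s (fun x hx => hZg (hD.1 (hs x hx).1))
          have hsm : cd (⋃ y ∈ s, {c | c ∈ A ∧ zf c ∈ D ∧ zf c ≤ y}) < κ := by
            apply cd_biUnion_lt hκ
            intro y hy
            refine lt_of_le_of_lt ?_ (hs y hy).2
            refine Cardinal.mk_le_of_injective
              (f := fun c : {c | c ∈ A ∧ zf c ∈ D ∧ zf c ≤ y} =>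
                (⟨zf c.1, c.2.2.1, c.2.2.2⟩ : {z | z ∈ D ∧ z ≤ y})) ?_
            intro a b hab
            exact Subtype.ext (hinj a.2.1 b.2.1 (congrArg Subtype.val hab))
          have hne : ∃ c, (c ∈ A ∧ c ≤ z ∧ zf c ∈ NF) ∧
              c ∉ (⋃ y ∈ s, {c | c ∈ A ∧ zf c ∈ D ∧ zf c ≤ y}) := by
            by_contra hcon
            refine absurd ((hR z hz).trans (cd_mono ?_)) (not_le.2 hsm)
            intro c hc
            by_contra hc'
            exact hcon ⟨c, hc, hc'⟩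
          obtain ⟨c, ⟨hcA, hcz, hcN⟩, hc'⟩ := hne
          refine ⟨zf c, hcN, fun x hx => ?_⟩
          have hx1 : ¬ zf c ≤ x := by
            intro hle
            apply hc'
            rw [Set.mem_iUnion₂]
            exact ⟨x, hx, hcA, hcN.1, hle⟩
          refine ⟨fun hle => ?_, hx1⟩
          exact hx1 (hst c hcA x (hcz.trans (hzs x hx)) hle).ge)
      have hinjF : Function.Injective F := by
        intro m n hmn
        rcases lt_trichotomy m n with h | h | h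
        · exact absurd hmn.le (hF2 m n h).1
        · exact h
        · exact absurd hmn.ge (hF2 n m h).1
      have hanti : IsAntichain (· ≤ ·) (Set.range F) := by
        rintro _ ⟨m, rfl⟩ _ ⟨n, rfl⟩ hne hle
        rcases lt_trichotomy m n with h | h | h
        · exact (hF2 m n h).1 hle
        · exact hne (by rw [h])
        · exact (hF2 n m h).2 hle
      exact Set.infinite_range_of_injective hinjF (hAC _ hanti)
    have hR' : R (D \ NF) := by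
      obtain ⟨i, hi⟩ := hRun 2 ![NF, D \ NF] D hD.2.1 (by
        intro z hz
        by_cases h : z ∈ NF
        · exact ⟨0, h⟩
        · exact ⟨1, hz, h⟩)
      fin_cases i
      · exact absurd hi hNF
      · exact hi
    obtain ⟨D1, hD1, hD1g⟩ := h1 (D \ NF) (fun z hz => hD.1 hz.1) hR' (by
      rintro d ⟨hd, hdN⟩ z hz hdz
      have hzD : z ∈ D := hD.2.2.2 d hd z hz hdz
      refine ⟨hzD, fun hzN => hdN ⟨hd, ?_⟩⟩
      have hsub : {w | w ∈ D ∧ w ≤ d} ⊆ {w | w ∈ D ∧ w ≤ z} :=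
        fun w hw => ⟨hw.1, le_trans hw.2 hdz⟩
      exact lt_of_le_of_lt (cd_mono hsub) hzN.2)
    have hle : D ≤ D1 := hDmin.2 hD1g (fun z hz => (hD1 hz).1)
    have hyN : y0 ∈ NF := And.intro hy0 hy0'
    exact (hD1 (hle hy0)).2 hyN
  refine ⟨D, hD.1, ⟨?_, hD.2.2.1, hlarge⟩, hRne D hD.2.1⟩
  obtain ⟨c, -, -, hc⟩ := hRne D hD.2.1 hgne.choose hgne.choose_spec
  exact ⟨_, hc⟩

theorem t_KFREE (h1 : S_KMP) (h2 : S_KCOI) (h3 : S_DIR) (h4 : S_AC) : S_KFREE := by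
  classical
  intro α _ w hw κ hκ E G hG C f hB x hxE hxB
  by_contra hlt
  rw [not_le] at hlt
  set T : Set α := {c | c ∈ C ∧ ∀ z ∈ KBB G, f z = c → ¬ x ≤ z ∧ ¬ z ≤ x} with hT
  obtain ⟨g, hg, hxg, q, hq, hxq⟩ : ∃ g ∈ G, x ∉ g.carrier ∧ ∃ q ∈ g.carrier, ¬ x < q := by
    by_contra hcon
    apply hxB
    refine ⟨hxE, fun g hg => ?_⟩
    by_contra h
    rw [not_or] at h
    apply hcon
    refine ⟨g, hg, h.1, ?_⟩
    by_contra h'
    apply h.2
    intro q hq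
    by_contra h''
    exact h' ⟨q, hq, h''⟩
  -- the representatives
  have hz : ∀ c, (c ∈ C ∧ c ∈ g.carrier ∧ c ∉ T) →
      ∃ z, z ∈ KBB G ∧ z ∈ g.carrier ∧ f z = c ∧ x ≤ z := by
    rintro c ⟨hcC, hcg, hcT⟩
    by_contra hcon
    apply hcT
    refine ⟨hcC, fun z hz hfz => ?_⟩
    have hzg : z ∈ g.carrier := (hB.same z hz g hg).1 (by rw [hfz]; exact hcg)
    refine ⟨fun h => hcon ⟨z, hz, hzg, hfz, h⟩, fun h => hxg (g.up z hzg x hxE h)⟩
  set A : Set α := {c | c ∈ C ∧ c ∈ g.carrier ∧ c ∉ T} with hA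
  let zf : α → α := fun c => if h : c ∈ A then (hz c h).choose else c
  have hzf : ∀ c ∈ A, zf c ∈ KBB G ∧ zf c ∈ g.carrier ∧ f (zf c) = c ∧ x ≤ zf c := by
    intro c hc
    have e : zf c = (hz c hc).choose := dif_pos hc
    rw [e]
    exact (hz c hc).choose_spec
  have hbig : ∀ z ∈ g.carrier, κ ≤ cd {c | c ∈ A ∧ c ≤ z} := by
    intro z hz
    have h0 := h2 α w hw κ hκ E G hG C f hB g hg z hz
    refine cd_of_union hκ (h0.trans (cd_mono ?_)) hlt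
    rintro c ⟨hcC, hcg, hcz⟩
    by_cases hcT : c ∈ T
    · exact Or.inl hcT
    · exact Or.inr ⟨⟨hcC, hcg, hcT⟩, hcz⟩
  have hst : ∀ c ∈ A, ∀ y, c ≤ y → y ≤ zf c → y = zf c := by
    intro c hc y hcy hyz
    by_contra hne
    have hlt' : c < zf c := lt_of_le_of_lt hcy (lt_of_le_of_ne hyz hne)
    exact hB.anti c (hB.sub hc.1) (zf c) (hzf c hc).1
      ((hB.fix c hc.1).trans (hzf c hc).2.2.1.symm) hlt'
  obtain ⟨D, hDZ, hDl, hDr⟩ := key (fun s hs => h4 α w hw s hs) hw.1 h3 hκ g.carrier A zf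
    g.nonempty g.dir
    (by
      intro a ha b hb hab
      rw [← (hzf a ha).2.2.1, ← (hzf b hb).2.2.1, hab])
    (fun c hc => (hzf c hc).2.1) hbig hst
  have hDB : D ⊆ KBB G := by
    intro y hy
    obtain ⟨c, hc, rfl⟩ := hDZ hy
    exact (hzf c hc).1
  have hDg : D ⊆ g.carrier := by
    intro y hy
    obtain ⟨c, hc, rfl⟩ := hDZ hy
    exact (hzf c hc).2.1
  rcases h1 α κ E G hG g hg D hDB hDl hDg with ha | ⟨p, hp, hpY⟩
  · obtain ⟨y, hy, hyq⟩ := ha q hq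
    obtain ⟨c, hc, rfl⟩ := hDZ hy
    have hxq' : x ≤ q := (hzf c hc).2.2.2.trans hyq
    rcases hxq'.lt_or_eq with h | h
    · exact hxq h
    · exact hxg (h ▸ hq)
  · obtain ⟨c, hcA, hcp, hcD⟩ := hDr p hp
    have hlt' := hpY (zf c) hcD
    exact absurd (hst c hcA p hcp hlt'.le) hlt'.ne

end Pool.Agent.Y666.SF.Y666
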