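import Pool.Agent.Y666.SF.Dir
import Pool.Agent.Y585.SP.Coi

/-!
# PROJECT SF: the blocks BIG and KINC
-/

set_option autoImplicit false
set_option linter.dupNamespace false

open Cardinal OrderDual

namespace Pool.Agent.Y666.SF.Y666

open Pool.Agent.Y666.SP Pool.Agent.Y585.SP

theorem cd_fin {α : Type} {κ : Cardinal.{0}} (hκ : ℵ₀ ≤ κ) {n : ℕ} (D : Fin n → Set α) {X : Set α}
    (hX : κ ≤ cd X) (h : ∀ x ∈ X, ∃ i, x ∈ D i) : ∃ i, κ ≤ cd (D i) := by
  by_contra hcon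
  have hcon' : ∀ i, cd (D i) < κ := fun i => not_le.1 fun hi => hcon ⟨i, hi⟩
  have h1 := cd_iUnion_lt hκ D hcon' Finset.univ
  refine absurd (hX.trans (cd_mono ?_)) (not_le.2 h1)
  intro x hx
  obtain ⟨i, hi⟩ := h x hx
  rw [Set.mem_iUnion₂]
  exact ⟨i, Finset.mem_univ _, hi⟩

theorem t_BIG (hDIR : S_DIR) : S_BIG := by
  classical
  intro α _ hAC κ hκ X hX
  let L : Set α := {x | x ∈ X ∧ cd {y | y ∈ X ∧ y ≤ x} < κ}
  by_cases hL : cd L < κ
  · -- Case 1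
    let M : Set α := {x | x ∈ X ∧ ¬ cd {y | y ∈ X ∧ y ≤ x} < κ}
    have hM : κ ≤ cd M := by
      refine cd_of_union hκ (hX.trans (cd_mono ?_)) hL
      intro x hx
      by_cases h : cd {y | y ∈ X ∧ y ≤ x} < κ
      · exact Or.inl ⟨hx, h⟩
      · exact Or.inr ⟨hx, h⟩
    have hMx : ∀ x ∈ M, κ ≤ cd {y | y ∈ M ∧ y ≤ x} := by
      intro x hx
      refine cd_of_union hκ ((not_lt.1 hx.2).trans (cd_mono ?_)) hL
      rintro y ⟨hy, hyx⟩
      by_cases h : cd {z | z ∈ X ∧ z ≤ y} < κ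
      · exact Or.inl ⟨hy, h⟩
      · exact Or.inr ⟨⟨hy, h⟩, hyx⟩
    obtain ⟨d, hd⟩ := nonempty_of_cd hκ hM
    obtain ⟨y, hy, -, hya⟩ := exists_atomic hAC M d hd
    refine ⟨{z | z ∈ M ∧ z ≤ y}, fun z hz => hz.1.1, Or.inl ⟨⟨y, hy, le_rfl⟩, ?_, ?_⟩⟩
    · rintro a ⟨ha, hay⟩ b ⟨hb, hby⟩
      obtain ⟨z, hz, hza, hzb⟩ := hya a ha hay b hb hby
      exact ⟨z, ⟨hz, hza.trans hay⟩, hza, hzb⟩
    · rintro z ⟨hz, hzy⟩
      refine (hMx z hz).trans (cd_mono ?_)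
      rintro w ⟨hw, hwz⟩
      exact ⟨⟨hw, hwz.trans hzy⟩, hwz⟩
  · -- Case 2
    rw [not_lt] at hL
    by_contra hcon
    have hno : ∀ D ⊆ L, ¬ KLargeU κ D := fun D hD h =>
      hcon ⟨D, fun x hx => (hD hx).1, Or.inr h⟩
    have hAC' : ∀ s : Set αᵒᵈ, IsAntichain (· ≤ ·) s → s.Finite := by
      intro s hs
      have h1 : (toDual ⁻¹' s).Finite := by
        apply hAC
        intro a ha b hb hne hle
        exact hs (show toDual b ∈ s from hb) (show toDual a ∈ s from ha)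
          (fun h => hne (toDual.injective h).symm) hle
      have h2 : s = toDual '' (toDual ⁻¹' s) := by
        ext x
        constructor
        · intro hx
          exact ⟨ofDual x, hx, rfl⟩
        · rintro ⟨a, ha, rfl⟩
          exact ha
      rw [h2]
      exact h1.image _
    have step : ∀ S : {S : Set α // S ⊆ L ∧ κ ≤ cd S}, ∃ p : α × {S : Set α // S ⊆ L ∧ κ ≤ cd S},
        p.1 ∈ S.1 ∧ p.2.1 ⊆ S.1 ∧ ∀ y ∈ p.2.1, ¬ p.1 ≤ y ∧ ¬ y ≤ p.1 := by
      rintro ⟨S, hS, hSk⟩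
      obtain ⟨n, Di, hsub, hdir, hcov⟩ := hDIR αᵒᵈ hAC' (dS S)
      obtain ⟨i, hi⟩ := cd_fin hκ (fun i => (toDual ⁻¹' Di i : Set α)) hSk
        (fun x hx => hcov (toDual x) hx)
      have hDS : (toDual ⁻¹' Di i : Set α) ⊆ S := fun x hx => hsub i hx
      obtain ⟨x, hx, hxs⟩ : ∃ x ∈ (toDual ⁻¹' Di i : Set α),
          cd {y | y ∈ (toDual ⁻¹' Di i : Set α) ∧ x ≤ y} < κ := by
        by_contra h
        apply hno _ (hDS.trans hS)
        refine ⟨nonempty_of_cd hκ hi, ?_, ?_⟩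
        · intro a ha b hb
          obtain ⟨z, hz, hz1, hz2⟩ := hdir i (toDual a) ha (toDual b) hb
          exact ⟨ofDual z, hz, hz1, hz2⟩
        · intro d hd
          by_contra hd'
          exact h ⟨d, hd, not_le.1 hd'⟩
      have hbig : κ ≤ cd {y | y ∈ (toDual ⁻¹' Di i : Set α) ∧ ¬ x ≤ y ∧ ¬ y ≤ x} := by
        have hs := cd_union_lt hκ hxs (hS (hDS hx)).2
        refine cd_of_union hκ (hi.trans (cd_mono ?_)) hs
        intro y hy
        by_cases h1 : x ≤ y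
        · exact Or.inl (Or.inl ⟨hy, h1⟩)
        · by_cases h2 : y ≤ x
          · exact Or.inl (Or.inr ⟨(hS (hDS hy)).1, h2⟩)
          · exact Or.inr ⟨hy, h1, h2⟩
      refine ⟨(x, ⟨{y | y ∈ (toDual ⁻¹' Di i : Set α) ∧ ¬ x ≤ y ∧ ¬ y ≤ x},
        fun y hy => hS (hDS hy.1), hbig⟩), hDS hx, fun y hy => hDS hy.1, fun y hy => hy.2⟩
    choose p hp1 hp2 hp3 using step
    let S : ℕ → {S : Set α // S ⊆ L ∧ κ ≤ cd S} := fun n =>
      Nat.rec ⟨L, subset_rfl, hL⟩ (fun _ d => (p d).2) n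
    have hSs : ∀ n, S (n + 1) = (p (S n)).2 := fun n => rfl
    have hSanti : Antitone (fun n => (S n).1) := by
      apply antitone_nat_of_succ_le
      intro n
      show (S (n + 1)).1 ⊆ (S n).1
      rw [hSs]
      exact hp2 _
    refine no_seq hAC (fun n => (p (S n)).1) ?_
    intro m n hmn
    have h1 : (p (S n)).1 ∈ (p (S m)).2.1 := by
      have h2 : (S n).1 ⊆ (S (m + 1)).1 := hSanti (show m + 1 ≤ n from hmn)
      rw [hSs] at h2
      exact h2 (hp1 (S n))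
    exact hp3 (S m) _ h1

theorem t_KINC (h1 : S_BIG) (h2 : S_AC) : S_KINC := by
  intro α _ w hw κ hκ S hst hstU
  have h1κ : (1 : Cardinal.{0}) < κ := Cardinal.one_lt_aleph0.trans_le hκ
  refine ⟨fun x hx => ?_, fun x hx y hy => ?_⟩
  · by_contra hcon
    rw [not_lt] at hcon
    obtain ⟨D, hD, hl | hl⟩ := h1 α (h2 α w hw) κ hκ _ hcon
    · obtain ⟨d, hd, hdx⟩ := hst D (fun d hd => (hD hd).1) hl x hx
      exact (hD hd).2.2 hdx
    · obtain ⟨d, hd, hdx⟩ := hstU D (fun d hd => (hD hd).1) hl x hx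
      exact (hD hd).2.1 hdx
  · by_contra hcon
    rw [not_lt] at hcon
    have hone : ∀ (D : Set α) (a : α), D ⊆ {a} → cd D < κ := by
      intro D a hDa
      refine lt_of_le_of_lt (cd_mono hDa) ?_
      have : cd ({a} : Set α) = 1 := Cardinal.mk_singleton a
      rw [this]
      exact h1κ
    obtain ⟨D, hD, hl | hl⟩ := h1 α (h2 α w hw) κ hκ _ hcon
    · obtain ⟨d, hd, hdx⟩ := hst D (fun d hd => (hD hd).1) hl x hx
      refine absurd (hl.2.2 d hd) (not_le.2 (hone _ x ?_))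
      rintro e ⟨he, hed⟩
      exact le_antisymm (hed.trans hdx) (hD he).2.1
    · obtain ⟨d, hd, hdx⟩ := hstU D (fun d hd => (hD hd).1) hl y hy
      refine absurd (hl.2.2 d hd) (not_le.2 (hone _ y ?_))
      rintro e ⟨he, hed⟩
      exact le_antisymm (hD he).2.2 (hdx.trans hed)

end Pool.Agent.Y666.SF.Y666
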