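import Pool.Agent.Y666.SF.Stm3

set_option autoImplicit false

open Cardinal OrderDual

namespace Pool.Agent.Y666.SF.Y585

open Pool.Agent.Y666.SP

theorem t_KRED (h1 : S_KFREE) (h2 : S_GREEDY) : S_KRED := by
  classical
  intro α _ w hw κ hκ E hE G hG C f hB
  let ι : Type := {x : α // x ∈ E ∧ x ∉ KBB G}
  let T : ι → Set α := fun i => {c | c ∈ C ∧ ∀ z ∈ KBB G, f z = c → ¬ i.1 ≤ z ∧ ¬ z ≤ i.1}
  have hT : ∀ i, κ ≤ cd (T i) := fun i =>
    h1 α w hw κ hκ E G hG C f hB i.1 i.2.1 i.2.2
  have hT2 : ∀ c, cd {i | c ∈ T i} ≤ κ := by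
    intro c
    by_cases hc : c ∈ C
    · have hcB : c ∈ KBB G := hB.sub hc
      refine le_trans ?_ (hE c hcB.1)
      refine Cardinal.mk_le_of_injective (f := fun i => ⟨i.1.1, i.1.2.1, ?_, ?_⟩) ?_
      · exact (i.2.2 c hcB (hB.fix c hc)).2
      · exact (i.2.2 c hcB (hB.fix c hc)).1
      · intro a b hab
        have := congrArg Subtype.val hab
        exact Subtype.ext (Subtype.ext this)
    · have h0 : {i | c ∈ T i} = ∅ := by
        ext i
        simp only [Set.mem_empty_iff_false, iff_false]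
        intro hi
        exact hc hi.1
      rw [h0]
      have : cd (∅ : Set ι) = 0 := Cardinal.mk_eq_zero _
      rw [this]
      exact zero_le
  obtain ⟨φ, hφ, hφT⟩ := h2 ι α κ T hκ hT hT2
  refine ⟨fun x => if hx : x ∈ KBB G then f x else
    if hE : x ∈ E then φ ⟨x, hE, hx⟩ else x, ?_, ?_⟩
  · refine ⟨fun c hc => (hB.sub hc).1, hB.chain, ?_, ?_, ?_⟩
    · intro x hx
      by_cases hxB : x ∈ KBB G
      · simp only [hxB, dif_pos]; exact hB.map x hxB
      · simp only [hxB, hx, dif_pos, dif_neg, not_false_eq_true]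
        exact (hφT ⟨x, hx, hxB⟩).1
    · intro c hc
      have hcB : c ∈ KBB G := hB.sub hc
      simp only [hcB, dif_pos]
      exact hB.fix c hc
    · intro x hx y hy hxy hlt
      by_cases hxB : x ∈ KBB G
      · by_cases hyB : y ∈ KBB G
        · simp only [hxB, hyB, dif_pos] at hxy
          exact hB.anti x hxB y hyB hxy hlt
        · simp only [hxB, hyB, hy, dif_pos, dif_neg, not_false_eq_true] at hxy
          have := (hφT ⟨y, hy, hyB⟩).2 x hxB hxy
          exact this.2 hlt.le
      · by_cases hyB : y ∈ KBB G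
        · simp only [hxB, hyB, hx, dif_pos, dif_neg, not_false_eq_true] at hxy
          have := (hφT ⟨x, hx, hxB⟩).2 y hyB hxy.symm
          exact this.1 hlt.le
        · simp only [hxB, hyB, hx, hy, dif_pos, dif_neg, not_false_eq_true] at hxy
          have h' := congrArg Subtype.val (hφ hxy)
          have h'' : x = y := h'
          exact lt_irrefl y (h'' ▸ hlt)
  · intro x hx
    simp only [hx, dif_pos]

end Pool.Agent.Y666.SF.Y585
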