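import Pool.Agent.Y666.SF.Stm3

/-!
# PROJECT SP, part 2: STPEXT (spines of a two-stage piece extend)
-/

set_option autoImplicit false

open Cardinal OrderDual

namespace Pool.Agent.Y666.SF.Y700

open Pool.Agent.Y666.SP

theorem wd_dual {α : Type} [PartialOrder α] {w : ℕ} (h : Wd α w) : Wd αᵒᵈ w := ⟨h.2, h.1⟩

theorem spine_dual {α : Type} [PartialOrder α] {S C : Set α} {f : α → α} (h : Spine S C f) :
    Spine (dS S) (dS C) (fun x => toDual (f (ofDual x))) where
  sub := fun x hx => h.sub hx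
  chain := by
    intro a ha b hb hab
    have hne : ofDual b ≠ ofDual a := fun e => hab (ofDual.injective e).symm
    rcases h.chain hb ha hne with h1 | h1
    · exact Or.inl h1
    · exact Or.inr h1
  map := fun x hx => h.map (ofDual x) hx
  fix := fun c hc => by
    show toDual (f (ofDual c)) = c
    rw [h.fix (ofDual c) hc]; rfl
  anti := fun x hx y hy hxy hlt =>
    h.anti (ofDual y) hy (ofDual x) hx (toDual.injective hxy).symm hlt

theorem spine_undual {α : Type} [PartialOrder α] {S : Set α} {C : Set αᵒᵈ} {f : αᵒᵈ → αᵒᵈ}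
    (h : Spine (dS S) C f) :
    Spine S (toDual ⁻¹' C) (fun x => ofDual (f (toDual x))) where
  sub := fun x hx => h.sub hx
  chain := by
    intro a ha b hb hab
    have hne : toDual b ≠ toDual a := fun e => hab (toDual.injective e).symm
    rcases h.chain hb ha hne with h1 | h1
    · exact Or.inl h1
    · exact Or.inr h1
  map := fun x hx => h.map (toDual x) hx
  fix := fun c hc => by
    show ofDual (f (toDual c)) = c
    rw [h.fix (toDual c) hc]; rfl
  anti := fun x hx y hy hxy hlt =>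
    h.anti (toDual y) hy (toDual x) hx (ofDual.injective hxy).symm hlt

theorem inc_mono {α : Type} [PartialOrder α] {S E : Set α} (hSE : S ⊆ E) (x : α) :
    cd (Inc S x) ≤ cd (Inc E x) :=
  Cardinal.mk_le_mk_of_subset (fun _ hy => ⟨hSE hy.1, hy.2⟩)

theorem inc_dual {α : Type} [PartialOrder α] (S : Set α) (x : αᵒᵈ) :
    cd (Inc (dS S) x) = cd (Inc S (ofDual x)) := by
  have e : Inc (dS S) x = dS (Inc S (ofDual x)) := by
    ext y
    constructor
    · rintro ⟨h1, h2, h3⟩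
      exact ⟨h1, h3, h2⟩
    · rintro ⟨h1, h2, h3⟩
      exact ⟨h1, h3, h2⟩
  rw [e]
  exact Cardinal.mk_preimage_equiv ofDual _

/-- STPEXT from KPC. -/
theorem t_STPEXT (h : S_KPC) : S_STPEXT := by
  intro α _ w hw κ hκ x₀ E S hStp hInc hQ
  obtain ⟨S₁, G, G', hd⟩ := hStp
  have hsub1 : S₁ ⊆ E := by
    rw [hd.eq₁]
    exact fun y hy => hy.1.1
  have hsub2 : S ⊆ S₁ := by
    intro y hy
    have : toDual y ∈ dS S := hy
    rw [hd.eq₂] at this
    exact this.1.1
  have hx₀ : toDual x₀ ∈ KBB G' := hd.memG'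
  -- stage 1
  have hE1 : Ext S₁ E := by
    have := (h α w hw κ hκ E hInc G hd.selG (fun S' hS' _ => hQ α w hw S' (fun x hx =>
      Order.lt_succ_of_le ((inc_mono hS' x).trans (hInc x (hS' hx)))))).1 x₀ hd.memG
    rw [← hd.eq₁] at this
    exact this
  -- stage 2
  have hInc2 : ∀ x ∈ dS S₁, cd (Inc (dS S₁) x) ≤ κ := by
    intro x hx
    rw [inc_dual]
    exact (inc_mono hsub1 _).trans (hInc _ (hsub1 hx))
  have hE2 : Ext (dS S) (dS S₁) := by
    have := (h αᵒᵈ w (wd_dual hw) κ hκ (dS S₁) hInc2 G' hd.selG' (fun S' hS' _ =>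
      hQ αᵒᵈ w (wd_dual hw) S' (fun x hx =>
        Order.lt_succ_of_le ((inc_mono hS' x).trans (hInc2 x (hS' hx)))))).1 (toDual x₀) hx₀
    rw [← hd.eq₂] at this
    exact this
  intro C f hsp
  obtain ⟨C₁, f₁, hs₁, hc₁, hf₁⟩ := hE2 _ _ (spine_dual hsp)
  obtain ⟨C₂, f₂, hs₂, hc₂, hf₂⟩ := hE1 _ _ (spine_undual hs₁)
  refine ⟨C₂, f₂, hs₂, ?_, ?_⟩
  · ext z
    constructor
    · rintro ⟨hz1, hz2⟩
      have h1 : z ∈ C₂ ∩ S₁ := ⟨hz1, hsub2 hz2⟩
      rw [hc₂] at h1
      have h2 : toDual z ∈ C₁ ∩ dS S := ⟨h1, hz2⟩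
      rw [hc₁] at h2
      exact h2
    · intro hz
      have h2 : toDual z ∈ C₁ ∩ dS S := by
        rw [hc₁]; exact hz
      have h1 : z ∈ C₂ ∩ S₁ := by
        rw [hc₂]; exact h2.1
      exact ⟨h1.1, h2.2⟩
  · intro x hx
    rw [hf₂ x (hsub2 hx)]
    show ofDual (f₁ (toDual x)) = f x
    rw [hf₁ (toDual x) hx]
    rfl

end Pool.Agent.Y666.SF.Y700
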