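import Pool.Agent.Y666.SF.Stm3
import Pool.Agent.Y405.SP.Kap

/-!
# PROJECT SF: the blocks KAC, KSYS, AC, WID
-/

set_option autoImplicit false
set_option linter.dupNamespace false

open Cardinal OrderDual

namespace Pool.Agent.Y666.SF.Y666

open Pool.Agent.Y666.SP

/-- The filter of the whole poset generated by a germ. -/
def upF {α : Type} [PartialOrder α] {κ : Cardinal.{0}} {E : Set α} (F : KGerm κ E) : Flt α where
  carrier := {y | ∃ x ∈ F.carrier, x ≤ y}
  nonempty := by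
    obtain ⟨x, hx⟩ := F.nonempty
    exact ⟨x, x, hx, le_rfl⟩
  up := by
    rintro x ⟨a, ha, hax⟩ y hxy
    exact ⟨a, ha, hax.trans hxy⟩
  dir := by
    rintro x ⟨a, ha, hax⟩ y ⟨b, hb, hby⟩
    obtain ⟨z, hz, hza, hzb⟩ := F.dir a ha b hb
    exact ⟨z, ⟨z, hz, le_rfl⟩, hza.trans hax, hzb.trans hby⟩

theorem upF_inj {α : Type} [PartialOrder α] {κ : Cardinal.{0}} {E : Set α} :
    Function.Injective (upF : KGerm κ E → Flt α) := by
  have key : ∀ F G : KGerm κ E, upF F = upF G → F.carrier ⊆ G.carrier := by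
    intro F G h x hx
    have h1 : x ∈ (upF F).carrier := ⟨x, hx, le_rfl⟩
    rw [h] at h1
    obtain ⟨y, hy, hyx⟩ := h1
    exact G.up y hy x (F.sub hx) hyx
  intro F G h
  exact KGerm.ext' (Set.Subset.antisymm (key F G h) (key G F h.symm))

theorem kll_of_sep {α : Type} [PartialOrder α] {κ : Cardinal.{0}} {E : Set α} {F G : KGerm κ E}
    (h : Sep (upF F) (upF G)) : kll F G := by
  obtain ⟨p, ⟨x, hx, hxp⟩, hp⟩ := h
  exact ⟨x, hx, fun q hq => lt_of_le_of_lt hxp (hp q ⟨q, hq, le_rfl⟩)⟩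

theorem t_KAC : S_KAC := by
  intro α _ w hw κ E s hs
  have h1 : (upF '' s).Finite := by
    apply hw.1
    rintro _ ⟨F, hF, rfl⟩ _ ⟨G, hG, rfl⟩ hsep
    exact hs F hF G hG (kll_of_sep hsep)
  exact h1.of_finite_image upF_inj.injOn

theorem t_KSYS : S_KSYS := by
  intro α _ w hw κ E
  refine ⟨?_, ?_, ?_, ?_, ?_⟩
  · intro a b h
    refine lt_iff_le_not_ge.mpr ⟨Pool.Agent.Y405.SP.Kap.kll_sub h, fun h' => ?_⟩
    obtain ⟨p, hp, hq⟩ := h
    exact lt_irrefl p (hq p (h' hp))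
  · rintro a b c hab ⟨p, hp, hq⟩
    exact ⟨p, hab hp, hq⟩
  · rintro a b c ⟨p, hp, hq⟩ hbc
    exact ⟨p, hp, fun q hqc => hq q (hbc hqc)⟩
  · intro x
    apply t_KAC α w hw κ E
    rintro F hF G hG ⟨p, hp, hq⟩
    exact hG.2 ⟨p, hF.1 hp, hq⟩
  · intro A hA hCh hA2
    obtain ⟨m, -, h2, h3, h4⟩ := Pool.Agent.Y405.SP.Kap.t_KGLB α κ E A hA hCh hA2
    exact ⟨m, h2, h3, h4⟩

/-- The principal filter. -/
def prF {α : Type} [PartialOrder α] (x : α) : Flt α where
  carrier := {y | x ≤ y}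
  nonempty := ⟨x, le_rfl⟩
  up := fun _ h _ h' => le_trans h h'
  dir := fun a ha b hb => ⟨x, le_rfl, ha, hb⟩

theorem t_AC : S_AC := by
  intro α _ w hw s hs
  have h1 : (prF '' s).Finite := by
    apply hw.1
    rintro _ ⟨x, hx, rfl⟩ _ ⟨y, hy, rfl⟩ ⟨p, hp, hpq⟩
    have h2 : x < y := lt_of_le_of_lt hp (hpq y le_rfl)
    exact hs hx hy h2.ne h2.le
  refine h1.of_finite_image ?_
  intro x _ y _ hxy
  have h2 : ∀ z, z ∈ (prF x).carrier ↔ z ∈ (prF y).carrier := by rw [hxy]; exact fun z => Iff.rfl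
  exact le_antisymm ((h2 y).2 le_rfl) ((h2 x).1 le_rfl)

theorem ff_of_wd {α : Type} [PartialOrder α] (w : ℕ) (hw : Pool.Agent.Y666.SP.Wd α w) : FF α := by
  classical
  intro s hs
  let φ : Flt α → KGerm 0 (Set.univ : Set α) := fun F =>
    { carrier := F.carrier
      sub := Set.subset_univ _
      nonempty := F.nonempty
      up := fun x hx y _ hxy => F.up x hx y hxy
      dir := F.dir
      large := fun _ _ => zero_le }
  have hφ : Function.Injective φ := by
    intro F G h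
    have : (φ F).carrier = (φ G).carrier := by rw [h]
    exact Flt.ext' this
  by_contra hinf
  obtain ⟨T, hT, hcard⟩ := Set.Infinite.exists_subset_card_eq hinf (w + 1)
  have h1 := Pool.Agent.Y405.SP.Kap.t_KAC α w hw 0 Set.univ (T.image φ) (by
    intro a ha b hb hab
    obtain ⟨F, hF, rfl⟩ := Finset.mem_image.1 ha
    obtain ⟨G, hG, rfl⟩ := Finset.mem_image.1 hb
    exact hs F (hT hF) G (hT hG) hab)
  rw [Finset.card_image_of_injective _ hφ] at h1
  omega

theorem wd_dual_sp {α : Type} [PartialOrder α] {w : ℕ} (hw : Pool.Agent.Y666.SP.Wd α w) :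
    Pool.Agent.Y666.SP.Wd αᵒᵈ w := by
  intro s hs
  have key := hw (s.map ⟨ofDual, ofDual.injective⟩) ?_
  · simpa using key
  · intro a ha b hb hab hle
    simp only [Finset.coe_map, Function.Embedding.coeFn_mk, Set.mem_image, Finset.mem_coe] at ha hb
    obtain ⟨a', ha', rfl⟩ := ha
    obtain ⟨b', hb', rfl⟩ := hb
    have hne : b' ≠ a' := fun e => hab (by rw [e])
    exact hs hb' ha' hne (ofDual_le_ofDual.mp hle)

theorem t_WID : S_WID := by
  intro α _ w hw
  exact ⟨ff_of_wd w hw, ff_of_wd w (wd_dual_sp hw)⟩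

end Pool.Agent.Y666.SF.Y666
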