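import Mathlib
import Pool.Agent.Y666.SF.Stm3

/-!
# SP2-TOWER (job 7788, helper96)
-/

set_option autoImplicit false

open Cardinal OrderDual

namespace Pool.Agent.Y666.SF.Y96

open Pool.Agent.Y666.SP

theorem inc_mono {α : Type} [PartialOrder α] {E T : Set α} (h : E ⊆ T) (x : α) :
    cd (Inc E x) ≤ cd (Inc T x) :=
  Cardinal.mk_le_mk_of_subset fun _ hy => ⟨h hy.1, hy.2⟩

theorem bt_mono {α : Type} [PartialOrder α] {E T : Set α} (h : E ⊆ T) (x y : α) :
    cd (Bt E x y) ≤ cd (Bt T x y) :=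
  Cardinal.mk_le_mk_of_subset fun _ hz => ⟨h hz.1, hz.2⟩

theorem c3_trans {α : Type} [PartialOrder α] {κ κ' : Cardinal.{0}} {x₀ : α} {T E S : Set α}
    (hκ : κ ≤ κ') (hET : E ⊆ T) (h1 : C3 κ' x₀ T E) (h2 : C3 κ x₀ E S) : C3 κ x₀ T S := by
  intro x hx e1 e2 e3
  exact h2 x (h1 x hx (e1.trans_le hκ) (e2.trans_le hκ) (e3.trans_le hκ))
    ((inc_mono hET x).trans_lt e1) ((bt_mono hET _ _).trans_lt e2) ((bt_mono hET _ _).trans_lt e3)

/-- the conditions on one level -/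
structure PP {α : Type} [PartialOrder α] (k : Cardinal.{0}) (T : Set α) (x₀ : α) (S : Set α) :
    Prop where
  adm : Adm k T x₀ S
  mem : x₀ ∈ S
  sub : S ⊆ T
  star : KStar k S
  staru : KStarU k S
  c3 : C3 k x₀ T S

/-- the conditions on two levels -/
def RR {α : Type} [PartialOrder α] (x₀ : α) (k m : Cardinal.{0}) (S S' : Set α) : Prop :=
  S ⊆ S' ∧ C3 k x₀ S' S ∧ (m = Order.succ k → Stp k x₀ S' S)

theorem fin_tower (h2 : S_STPEX) (h3 : S_STPPROP) (h4 : S_ADMSTEP) {α : Type} [PartialOrder α]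
    {w : ℕ} (hw : Wd α w) {κ₀ : Cardinal.{0}} (hκ₀ : ℵ₀ ≤ κ₀) {T : Set α} {x₀ : α} (hx₀ : x₀ ∈ T)
    (hInc : cd (Inc T x₀) < κ₀) (s : Finset Cardinal.{0}) : (∀ k ∈ s, κ₀ ≤ k) →
    ∃ σ : Cardinal.{0} → Set α, (∀ k ∈ s, PP k T x₀ (σ k)) ∧
      ∀ k ∈ s, ∀ m ∈ s, k < m → RR x₀ k m (σ k) (σ m) := by
  classical
  induction s using Finset.induction_on_min with
  | empty => exact fun _ => ⟨fun _ => T, by simp, by simp⟩
  | insert a s has ih =>
    intro hs
    obtain ⟨σ, hσ1, hσ2⟩ := ih fun k hk => hs k (Finset.mem_insert_of_mem hk)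
    have ha : κ₀ ≤ a := hs a (Finset.mem_insert_self _ _)
    have key : ∃ (E : Set α) (κ' : Cardinal.{0}), a ≤ κ' ∧ x₀ ∈ E ∧ Adm κ' T x₀ E ∧ E ⊆ T ∧
        C3 κ' x₀ T E ∧ (∀ j ∈ s, E ⊆ σ j ∧ C3 κ' x₀ (σ j) E) ∧
        ∀ j ∈ s, j = Order.succ a → E = σ j := by
      rcases s.eq_empty_or_nonempty with h | h
      · subst h
        refine ⟨T, a, le_rfl, hx₀, ⟨T, T, Or.inl rfl, Or.inl rfl, (Set.inter_self T).symm⟩,
          subset_rfl, fun x hx _ _ _ => hx, by simp, by simp⟩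
      · have hm : s.min' h ∈ s := s.min'_mem h
        have hP := hσ1 _ hm
        refine ⟨σ (s.min' h), s.min' h, (has _ hm).le, hP.mem, hP.adm, hP.sub, hP.c3, ?_, ?_⟩
        · intro j hj
          rcases (s.min'_le j hj).eq_or_lt with he | hl
          · rw [he]
            exact ⟨subset_rfl, fun x hx _ _ _ => hx⟩
          · have := hσ2 _ hm _ hj hl
            exact ⟨this.1, this.2.1⟩
        · intro j hj he
          have h5 : Order.succ a ≤ s.min' h := Order.succ_le_of_lt (has _ hm)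
          have h6 : s.min' h = j := le_antisymm (s.min'_le j hj) (he ▸ h5)
          rw [h6]
    obtain ⟨E, κ', hκ', hxE, hadm, hET, hC, hEj, hsucc⟩ := key
    obtain ⟨S, hS⟩ := h2 α w hw a (hκ₀.trans ha) E x₀ hxE
      (((inc_mono hET x₀).trans_lt hInc).trans_le ha)
    obtain ⟨p1, p2, _, p4, p5, p6⟩ := h3 α w hw a (hκ₀.trans ha) x₀ E S hS
    have hadm' := h4 α w hw a κ' (hκ₀.trans ha) hκ' T E S x₀ hxE hadm hS
    have hne : ∀ k ∈ s, k ≠ a := fun k hk he => absurd (has k hk) (he ▸ lt_irrefl _)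
    refine ⟨fun k => if k = a then S else σ k, ?_, ?_⟩
    · intro k hk
      by_cases hka : k = a
      · subst hka
        simp only [if_true]
        exact ⟨hadm', p2, p1.trans hET, p4, p5, c3_trans hκ' hET hC p6⟩
      · simp only [if_neg hka]
        exact hσ1 k (Finset.mem_of_mem_insert_of_ne hk hka)
    · intro k hk m hm hkm
      rcases Finset.mem_insert.1 hk with hka | hk'
      · rcases Finset.mem_insert.1 hm with hma | hm'
        · rw [hka, hma] at hkm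
          exact absurd hkm (lt_irrefl _)
        · subst hka
          simp only [if_true, if_neg (hne m hm')]
          refine ⟨p1.trans (hEj m hm').1, c3_trans hκ' (hEj m hm').1 (hEj m hm').2 p6, ?_⟩
          intro he
          rw [← hsucc m hm' he]
          exact hS
      · rcases Finset.mem_insert.1 hm with hma | hm'
        · rw [hma] at hkm
          exact absurd (hkm.trans (has k hk')) (lt_irrefl _)
        · simp only [if_neg (hne m hm'), if_neg (hne k hk')]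
          exact hσ2 k hk' m hm' hkm

theorem tower (h1 : S_RADO) (h2 : S_STPEX) (h3 : S_STPPROP) (h4 : S_ADMSTEP) (h5 : S_ADMFIN) :
    S_TOWER := by
  classical
  intro α _ w hw θ κ₀ hκ₀ T x₀ hx₀ hInc
  let O : Cardinal.{0} → Set (Set α) := fun k =>
    {S | ((κ₀ ≤ k ∧ k < θ) ∧ PP k T x₀ S) ∨ (¬ (κ₀ ≤ k ∧ k < θ) ∧ S = T)}
  have hfin : ∀ k, (O k).Finite := by
    intro k
    refine ((h5 α w hw k T x₀).union (Set.finite_singleton T)).subset ?_
    rintro S (⟨_, h⟩ | ⟨_, h⟩)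
    · exact Or.inl h.adm
    · exact Or.inr h
  let R : Cardinal.{0} → Cardinal.{0} → Set α → Set α → Prop := fun k m S S' =>
    κ₀ ≤ k → k < m → m < θ → RR x₀ k m S S'
  obtain ⟨σ, hO, hR⟩ := h1 Cardinal.{0} (Set α) O hfin R (by
    intro s
    obtain ⟨σ, hσ1, hσ2⟩ := fin_tower h2 h3 h4 hw hκ₀ hx₀ hInc
      (s.filter fun k => κ₀ ≤ k ∧ k < θ) (fun k hk => (Finset.mem_filter.1 hk).2.1)
    refine ⟨fun k => if κ₀ ≤ k ∧ k < θ then σ k else T, ?_, ?_⟩
    · intro k hk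
      by_cases h : κ₀ ≤ k ∧ k < θ
      · left
        simp only [if_pos h]
        exact ⟨h, hσ1 k (Finset.mem_filter.2 ⟨hk, h⟩)⟩
      · right
        simp only [if_neg h]
        exact ⟨h, trivial⟩
    · intro k hk m hm e1 e2 e3
      have hk' : κ₀ ≤ k ∧ k < θ := ⟨e1, e2.trans e3⟩
      have hm' : κ₀ ≤ m ∧ m < θ := ⟨e1.trans e2.le, e3⟩
      simp only [if_pos hk', if_pos hm']
      exact hσ2 k (Finset.mem_filter.2 ⟨hk, hk'⟩) m (Finset.mem_filter.2 ⟨hm, hm'⟩) e2)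
  have hP : ∀ k, κ₀ ≤ k → k < θ → PP k T x₀ (σ k) := by
    intro k e1 e2
    rcases hO k with ⟨_, h⟩ | ⟨h, _⟩
    · exact h
    · exact absurd ⟨e1, e2⟩ h
  refine ⟨σ, ?_⟩
  exact
    { mem := fun k e1 e2 => (hP k e1 e2).mem
      sub := fun k e1 e2 => (hP k e1 e2).sub
      star := fun k e1 e2 => ⟨(hP k e1 e2).star, (hP k e1 e2).staru⟩
      top := fun k e1 e2 => (hP k e1 e2).c3
      mono := fun k m e1 e2 e3 => ⟨(hR k m e1 e2 e3).1, (hR k m e1 e2 e3).2.1⟩
      step := fun k e1 e2 => (hR k (Order.succ k) e1 (Order.lt_succ k) e2).2.2 rfl }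

end Pool.Agent.Y666.SF.Y96
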