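import Mathlib
import Pool.Agent.Y666.SF.Stm3

/-!
# SP2-UPP: the upper cut of a piece (project SP of helper666)
-/

set_option autoImplicit false

open Cardinal OrderDual

namespace Pool.Agent.Y666.SF.Y390.UPP

open Pool.Agent.Y666.SP

section core
variable {α : Type} [PartialOrder α]

omit [PartialOrder α] in
lemma cd_mono {S S' : Set α} (h : S ⊆ S') : cd S ≤ cd S' := Cardinal.mk_le_mk_of_subset h

/-- carriers of filter germs -/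
structure FG (κ : Cardinal.{0}) (T C : Set α) : Prop where
  sub : C ⊆ T
  ne : C.Nonempty
  up : ∀ x ∈ C, ∀ y ∈ T, x ≤ y → y ∈ C
  dir : ∀ x ∈ C, ∀ y ∈ C, ∃ z ∈ C, z ≤ x ∧ z ≤ y
  lg : ∀ x ∈ C, κ ≤ cd {y | y ∈ C ∧ y ≤ x}

/-- carriers of ideal germs -/
structure IG (κ : Cardinal.{0}) (T C : Set α) : Prop where
  sub : C ⊆ T
  ne : C.Nonempty
  dn : ∀ x ∈ C, ∀ y ∈ T, y ≤ x → y ∈ C
  dir : ∀ x ∈ C, ∀ y ∈ C, ∃ z ∈ C, x ≤ z ∧ y ≤ z
  lg : ∀ x ∈ C, κ ≤ cd {y | y ∈ C ∧ x ≤ y}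

/-- some element of `a` is below `b` -/
def kl (a b : Set α) : Prop := ∃ p ∈ a, ∀ q ∈ b, p < q

/-- some element of `a` is above `b` -/
def kl' (a b : Set α) : Prop := ∃ p ∈ a, ∀ q ∈ b, q < p

/-- upper cuts in terms of sets -/
def UC (κ : Cardinal.{0}) (T : Set α) (x₀ : α) (D : Set α) : Prop :=
  D = T ∨ (IG κ T D ∧ x₀ ∈ D ∧ ∀ F', IG κ T F' → x₀ ∈ F' → ¬ kl' D F') ∨
  ∃ J, FG κ T J ∧ (∀ j ∈ J, x₀ < j) ∧ (∀ J', FG κ T J' → (∀ j ∈ J', x₀ < j) → ¬ kl J' J) ∧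
    D = {y | y ∈ T ∧ ∀ j ∈ J, y < j}

lemma cutF {κ : Cardinal.{0}} {T UE DE E : Set α} {x₀ : α} (hx : x₀ ∈ E)
    (hE : E = UE ∩ DE) (hup : ∀ x ∈ UE, ∀ y ∈ T, x ≤ y → y ∈ UE)
    (hdn : ∀ x ∈ DE, ∀ y ∈ T, y ≤ x → y ∈ DE) (hET : E ⊆ T) {J' : Set α} (hJ : FG κ T J')
    (hgt : ∀ j ∈ J', x₀ < j) {p : α} (hp : p ∈ J') (hpE : p ∈ E) : FG κ E (J' ∩ E) := by
  have key : ∀ a ∈ E, ∀ c ∈ J', c ≤ a → c ∈ E := by
    intro a ha c hc hca
    rw [hE] at ha hx ⊢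
    exact ⟨hup x₀ hx.1 c (hJ.sub hc) (hgt c hc).le, hdn a ha.2 c (hJ.sub hc) hca⟩
  refine ⟨Set.inter_subset_right, ⟨p, hp, hpE⟩, ?_, ?_, ?_⟩
  · intro x hx' y hy hxy
    exact ⟨hJ.up x hx'.1 y (hET hy) hxy, hy⟩
  · intro x hx' y hy
    obtain ⟨z, hz, hzx, hzy⟩ := hJ.dir x hx'.1 y hy.1
    exact ⟨z, ⟨hz, key x hx'.2 z hz hzx⟩, hzx, hzy⟩
  · intro x hx'
    refine le_trans (hJ.lg x hx'.1) (cd_mono ?_)
    rintro y ⟨hy, hyx⟩
    exact ⟨⟨hy, key x hx'.2 y hy hyx⟩, hyx⟩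

theorem core {κ κ' : Cardinal.{0}} (hκ : κ ≤ κ') {T UE DE E : Set α} {x₀ : α} (hx : x₀ ∈ E)
    (hE : E = UE ∩ DE) (hDT : DE ⊆ T)
    (hup : ∀ x ∈ UE, ∀ y ∈ T, x ≤ y → y ∈ UE)
    (hdn : ∀ x ∈ DE, ∀ y ∈ T, y ≤ x → y ∈ DE) (hc : UC κ' T x₀ DE)
    (S₁ : Set α) (G : Set (Set α)) (G' : Set (Set α))
    (hG : ∀ g ∈ G, FG κ E g) (mx : ∀ C, FG κ E C → ¬ ∀ g ∈ G, kl g C ∨ kl C g)
    (hx0 : ∀ g ∈ G, x₀ ∈ g ∨ ∀ q ∈ g, x₀ < q)
    (hS : ∀ y, y ∈ S₁ ↔ (y ∈ E ∧ ∀ g ∈ G, y ∈ g ∨ ∀ q ∈ g, y < q) ∧ ∀ g ∈ G, (y ∈ g ↔ x₀ ∈ g))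
    (hG' : ∀ J ∈ G', IG κ S₁ J) (ch' : ∀ a ∈ G', ∀ b ∈ G', a = b ∨ kl' a b ∨ kl' b a)
    (mx' : ∀ C, IG κ S₁ C → ¬ ∀ J ∈ G', kl' J C ∨ kl' C J)
    (hx0' : ∀ J ∈ G', x₀ ∈ J ∨ ∀ q ∈ J, q < x₀)
    (least : (∃ u ∈ G, x₀ ∉ u) → ∃ u ∈ G, x₀ ∉ u ∧ ∀ h ∈ G, x₀ ∉ h → h = u ∨ kl u h) :
    UC κ T x₀ {y | y ∈ DE ∧ (∀ g ∈ G, x₀ ∉ g → ∀ q ∈ g, y < q) ∧
      ∀ J ∈ G', x₀ ∈ J → ∃ j ∈ J, y ≤ j} := by
  have hEU : E ⊆ UE := by rw [hE]; exact Set.inter_subset_left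
  have hED : E ⊆ DE := by rw [hE]; exact Set.inter_subset_right
  have hET : E ⊆ T := fun y hy => hDT (hED hy)
  have hmE : ∀ y, y ∈ UE → y ∈ DE → y ∈ E := by
    intro y h1 h2; rw [hE]; exact ⟨h1, h2⟩
  have hS₁E : S₁ ⊆ E := fun y hy => ((hS y).1 hy).1.1
  have hxS : x₀ ∈ S₁ := (hS x₀).2 ⟨⟨hx, hx0⟩, fun g _ => Iff.rfl⟩
  have hSg : ∀ y ∈ S₁, ∀ g ∈ G, x₀ ∉ g → ∀ q ∈ g, y < q := by
    intro y hy g hg hxg
    have h1 := (hS y).1 hy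
    rcases h1.1.2 g hg with h | h
    · exact absurd ((h1.2 g hg).1 h) hxg
    · exact h
  have hSg' : ∀ y ∈ S₁, ∀ g ∈ G, x₀ ∈ g → y ∈ g := by
    intro y hy g hg hxg
    exact (((hS y).1 hy).2 g hg).2 hxg
  -- convexity
  have hconv : ∀ a ∈ S₁, ∀ b ∈ S₁, ∀ y ∈ E, a ≤ y → y ≤ b → y ∈ S₁ := by
    intro a ha b hb y hy hay hyb
    have h1 : ∀ g ∈ G, x₀ ∈ g → y ∈ g := fun g hg hxg =>
      (hG g hg).up a (hSg' a ha g hg hxg) y hy hay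
    have h2 : ∀ g ∈ G, x₀ ∉ g → ∀ q ∈ g, y < q := fun g hg hxg q hq =>
      lt_of_le_of_lt hyb (hSg b hb g hg hxg q hq)
    refine (hS y).2 ⟨⟨hy, ?_⟩, ?_⟩
    · intro g hg
      by_cases hxg : x₀ ∈ g
      · exact Or.inl (h1 g hg hxg)
      · exact Or.inr (h2 g hg hxg)
    · intro g hg
      constructor
      · intro hyg
        by_contra hxg
        exact lt_irrefl _ (h2 g hg hxg y hyg)
      · exact h1 g hg
  -- subsets of chains of ideal germs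
  have hsub' : ∀ a ∈ G', ∀ b ∈ G', kl' a b → b ⊆ a := by
    rintro a ha b hb ⟨p, hp, hpb⟩ q hq
    exact (hG' a ha).dn p hp q ((hG' b hb).sub hq) (hpb q hq).le
  have hsub : ∀ a ∈ G, ∀ b ∈ G, kl a b → b ⊆ a := by
    rintro a ha b hb ⟨p, hp, hpb⟩ q hq
    exact (hG a ha).up p hp q ((hG b hb).sub hq) (hpb q hq).le
  by_cases hU : ∃ J ∈ G', x₀ ∈ J
  · by_cases hJm : ∃ Jm ∈ G', x₀ ∈ Jm ∧ ∀ J ∈ G', x₀ ∈ J → J = Jm ∨ kl' J Jm
    · -- Case A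
      obtain ⟨Jm, hJmG, hxJ, hJmin⟩ := hJm
      have hJS := hG' Jm hJmG
      have hJmsub : ∀ J ∈ G', x₀ ∈ J → Jm ⊆ J := by
        intro J hJ hxJ'
        rcases hJmin J hJ hxJ' with h | h
        · rw [h]
        · exact hsub' J hJ Jm hJmG h
      have heq : {y | y ∈ DE ∧ (∀ g ∈ G, x₀ ∉ g → ∀ q ∈ g, y < q) ∧
          ∀ J ∈ G', x₀ ∈ J → ∃ j ∈ J, y ≤ j} = {y | y ∈ T ∧ ∃ j ∈ Jm, y ≤ j} := by
        ext y
        constructor
        · rintro ⟨h1, -, h3⟩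
          exact ⟨hDT h1, h3 Jm hJmG hxJ⟩
        · rintro ⟨h1, j, hj, hyj⟩
          have hjS := hJS.sub hj
          refine ⟨hdn j (hED (hS₁E hjS)) y h1 hyj, ?_, ?_⟩
          · intro g hg hxg q hq
            exact lt_of_le_of_lt hyj (hSg j hjS g hg hxg q hq)
          · intro J hJ hxJ'
            exact ⟨j, hJmsub J hJ hxJ' hj, hyj⟩
      rw [heq]
      refine Or.inr (Or.inl ⟨⟨fun y hy => hy.1, ⟨x₀, hET hx, x₀, hxJ, le_rfl⟩, ?_, ?_, ?_⟩,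
        ⟨hET hx, x₀, hxJ, le_rfl⟩, ?_⟩)
      · rintro x ⟨hxT, j, hj, hxj⟩ y hy hyx
        exact ⟨hy, j, hj, le_trans hyx hxj⟩
      · rintro x ⟨hxT, j, hj, hxj⟩ y ⟨hyT, j', hj', hyj'⟩
        obtain ⟨z, hz, h1, h2⟩ := hJS.dir j hj j' hj'
        exact ⟨z, ⟨hET (hS₁E (hJS.sub hz)), z, hz, le_rfl⟩, le_trans hxj h1, le_trans hyj' h2⟩
      · rintro x ⟨hxT, j, hj, hxj⟩
        refine le_trans (hJS.lg j hj) (cd_mono ?_)
        rintro y ⟨hy, hjy⟩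
        exact ⟨⟨hET (hS₁E (hJS.sub hy)), y, hy, le_rfl⟩, le_trans hxj hjy⟩
      · rintro F' hF' hxF' ⟨p, ⟨hpT, j, hj, hpj⟩, hpF⟩
        have hjS := hJS.sub hj
        have key : ∀ a ∈ S₁, ∀ c ∈ F', a ≤ c → c ∈ S₁ := by
          intro a ha c hcF hac
          have hcj : c ≤ j := le_trans (hpF c hcF).le hpj
          have hcT := hF'.sub hcF
          have hcE : c ∈ E := hmE c (hup a (hEU (hS₁E ha)) c hcT hac)
            (hdn j (hED (hS₁E hjS)) c hcT hcj)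
          exact hconv a ha j hjS c hcE hac hcj
        refine mx' (F' ∩ S₁) ⟨Set.inter_subset_right, ⟨x₀, hxF', hxS⟩, ?_, ?_, ?_⟩ ?_
        · intro x hx' y hy hyx
          exact ⟨hF'.dn x hx'.1 y (hET (hS₁E hy)) hyx, hy⟩
        · intro x hx' y hy
          obtain ⟨z, hz, h1, h2⟩ := hF'.dir x hx'.1 y hy.1
          exact ⟨z, ⟨hz, key x hx'.2 z hz h1⟩, h1, h2⟩
        · intro x hx'
          refine le_trans (hF'.lg x hx'.1) (cd_mono ?_)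
          rintro y ⟨hy, hxy⟩
          exact ⟨⟨hy, key x hx'.2 y hy hxy⟩, hxy⟩
        · intro J hJ
          by_cases hxJ' : x₀ ∈ J
          · left
            refine ⟨j, hJmsub J hJ hxJ' hj, ?_⟩
            intro q hq
            exact lt_of_lt_of_le (hpF q hq.1) hpj
          · right
            refine ⟨x₀, ⟨hxF', hxS⟩, ?_⟩
            rcases hx0' J hJ with h | h
            · exact absurd h hxJ'
            · exact h
    · -- Case B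
      have hnext : ∀ J ∈ G', x₀ ∈ J → ∃ J2 ∈ G', x₀ ∈ J2 ∧ kl' J J2 := by
        intro J hJ hxJ
        by_contra hcon
        apply hJm
        refine ⟨J, hJ, hxJ, ?_⟩
        intro J2 hJ2 hxJ2
        rcases ch' J2 hJ2 J hJ with h | h | h
        · exact Or.inl h
        · exact Or.inr h
        · exact absurd ⟨J2, hJ2, hxJ2, h⟩ hcon
      obtain ⟨Ja, hJa, hxJa⟩ := hU
      -- the filter
      have hFU : FG κ T {y | y ∈ T ∧ ∃ J ∈ G', x₀ ∈ J ∧ ∀ q ∈ J, q < y} := by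
        refine ⟨fun y hy => hy.1, ?_, ?_, ?_, ?_⟩
        · obtain ⟨J2, hJ2, hxJ2, p, hp, hpJ⟩ := hnext Ja hJa hxJa
          exact ⟨p, hET (hS₁E ((hG' Ja hJa).sub hp)), J2, hJ2, hxJ2, hpJ⟩
        · rintro x ⟨hxT, J, hJ, hxJ, hq⟩ y hy hxy
          exact ⟨hy, J, hJ, hxJ, fun q hqJ => lt_of_lt_of_le (hq q hqJ) hxy⟩
        · rintro x ⟨hxT, J, hJ, hxJ, hq⟩ y ⟨hyT, J', hJ', hxJ', hq'⟩
          have h3 : ∃ J3 ∈ G', x₀ ∈ J3 ∧ J3 ⊆ J ∧ J3 ⊆ J' := by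
            rcases ch' J hJ J' hJ' with h | h | h
            · exact ⟨J, hJ, hxJ, subset_rfl, h ▸ subset_rfl⟩
            · exact ⟨J', hJ', hxJ', hsub' J hJ J' hJ' h, subset_rfl⟩
            · exact ⟨J, hJ, hxJ, subset_rfl, hsub' J' hJ' J hJ h⟩
          obtain ⟨J3, hJ3, hxJ3, hs1, hs2⟩ := h3
          obtain ⟨J4, hJ4, hxJ4, p, hp, hpJ⟩ := hnext J3 hJ3 hxJ3
          exact ⟨p, ⟨hET (hS₁E ((hG' J3 hJ3).sub hp)), J4, hJ4, hxJ4, hpJ⟩,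
            (hq p (hs1 hp)).le, (hq' p (hs2 hp)).le⟩
        · rintro x ⟨hxT, J, hJ, hxJ, hq⟩
          obtain ⟨J2, hJ2, hxJ2, p, hp, hpJ⟩ := hnext J hJ hxJ
          refine le_trans ((hG' J hJ).lg p hp) (cd_mono ?_)
          rintro y ⟨hy, hpy⟩
          exact ⟨⟨hET (hS₁E ((hG' J hJ).sub hy)), J2, hJ2, hxJ2,
            fun q hqJ => lt_of_lt_of_le (hpJ q hqJ) hpy⟩, (hq y hy).le⟩
      have heq : {y | y ∈ DE ∧ (∀ g ∈ G, x₀ ∉ g → ∀ q ∈ g, y < q) ∧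
          ∀ J ∈ G', x₀ ∈ J → ∃ j ∈ J, y ≤ j} =
          {y | y ∈ T ∧ ∀ j ∈ {y | y ∈ T ∧ ∃ J ∈ G', x₀ ∈ J ∧ ∀ q ∈ J, q < y}, y < j} := by
        ext y
        constructor
        · rintro ⟨h1, -, h3⟩
          refine ⟨hDT h1, ?_⟩
          rintro f ⟨hfT, J, hJ, hxJ, hq⟩
          obtain ⟨j, hj, hyj⟩ := h3 J hJ hxJ
          exact lt_of_le_of_lt hyj (hq j hj)
        · rintro ⟨h1, h2⟩
          obtain ⟨J2, hJ2, hxJ2, p, hp, hpJ⟩ := hnext Ja hJa hxJa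
          have hpS := (hG' Ja hJa).sub hp
          have hyp : y < p := h2 p ⟨hET (hS₁E hpS), J2, hJ2, hxJ2, hpJ⟩
          refine ⟨hdn p (hED (hS₁E hpS)) y h1 hyp.le, ?_, ?_⟩
          · intro g hg hxg q hq
            exact lt_trans hyp (hSg p hpS g hg hxg q hq)
          · intro J hJ hxJ
            obtain ⟨J2, hJ2, hxJ2, p', hp', hpJ'⟩ := hnext J hJ hxJ
            exact ⟨p', hp', (h2 p' ⟨hET (hS₁E ((hG' J hJ).sub hp')), J2, hJ2, hxJ2, hpJ'⟩).le⟩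
      refine Or.inr (Or.inr ⟨{y | y ∈ T ∧ ∃ J ∈ G', x₀ ∈ J ∧ ∀ q ∈ J, q < y}, hFU, ?_, ?_, heq⟩)
      · rintro j ⟨-, J, hJ, hxJ, hq⟩
        exact hq x₀ hxJ
      · rintro J' hJ' hgt ⟨p, hp, hpF⟩
        obtain ⟨J2, hJ2, hxJ2, p1, hp1, hpJ⟩ := hnext Ja hJa hxJa
        have hp1S := (hG' Ja hJa).sub hp1
        have hpp1 : p < p1 := hpF p1 ⟨hET (hS₁E hp1S), J2, hJ2, hxJ2, hpJ⟩
        have hpE : p ∈ E := hmE p (hup x₀ (hEU hx) p (hJ'.sub hp) (hgt p hp).le)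
          (hdn p1 (hED (hS₁E hp1S)) p (hJ'.sub hp) hpp1.le)
        have hpS : p ∈ S₁ := hconv x₀ hxS p1 hp1S p hpE (hgt p hp).le hpp1.le
        refine mx (J' ∩ E) (cutF hx hE hup hdn hET hJ' hgt hp hpE) ?_
        intro h hh
        by_cases hxh : x₀ ∈ h
        · exact Or.inl ⟨x₀, hxh, fun q hq => hgt q hq.1⟩
        · exact Or.inr ⟨p, ⟨hp, hpE⟩, hSg p hpS h hh hxh⟩
  · have hU' : ∀ J ∈ G', x₀ ∉ J := fun J hJ h => hU ⟨J, hJ, h⟩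
    by_cases hu : ∃ u ∈ G, x₀ ∉ u
    · -- Case C
      obtain ⟨u, huG, hxu, hlu⟩ := least hu
      have huF := hG u huG
      have hxlt : ∀ q ∈ u, x₀ < q := by
        rcases hx0 u huG with h | h
        · exact absurd h hxu
        · exact h
      have hgu : ∀ h ∈ G, x₀ ∉ h → h ⊆ u := by
        intro h hh hxh
        rcases hlu h hh hxh with h1 | h1
        · rw [h1]
        · exact hsub u huG h hh h1
      have hFT : FG κ T {y | y ∈ T ∧ ∃ q ∈ u, q ≤ y} := by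
        obtain ⟨q0, hq0⟩ := huF.ne
        refine ⟨fun y hy => hy.1, ⟨q0, hET (huF.sub hq0), q0, hq0, le_rfl⟩, ?_, ?_, ?_⟩
        · rintro x ⟨hxT, q, hq, hqx⟩ y hy hxy
          exact ⟨hy, q, hq, le_trans hqx hxy⟩
        · rintro x ⟨hxT, q, hq, hqx⟩ y ⟨hyT, q', hq', hqy⟩
          obtain ⟨z, hz, h1, h2⟩ := huF.dir q hq q' hq'
          exact ⟨z, ⟨hET (huF.sub hz), z, hz, le_rfl⟩, le_trans h1 hqx, le_trans h2 hqy⟩
        · rintro x ⟨hxT, q, hq, hqx⟩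
          refine le_trans (huF.lg q hq) (cd_mono ?_)
          rintro y ⟨hy, hyq⟩
          exact ⟨⟨hET (huF.sub hy), y, hy, le_rfl⟩, le_trans hyq hqx⟩
      have heq : {y | y ∈ DE ∧ (∀ g ∈ G, x₀ ∉ g → ∀ q ∈ g, y < q) ∧
          ∀ J ∈ G', x₀ ∈ J → ∃ j ∈ J, y ≤ j} =
          {y | y ∈ T ∧ ∀ j ∈ {y | y ∈ T ∧ ∃ q ∈ u, q ≤ y}, y < j} := by
        ext y
        constructor
        · rintro ⟨h1, h2, -⟩
          refine ⟨hDT h1, ?_⟩
          rintro f ⟨hfT, q, hq, hqf⟩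
          exact lt_of_lt_of_le (h2 u huG hxu q hq) hqf
        · rintro ⟨h1, h2⟩
          obtain ⟨q0, hq0⟩ := huF.ne
          have hy0 : y < q0 := h2 q0 ⟨hET (huF.sub hq0), q0, hq0, le_rfl⟩
          refine ⟨hdn q0 (hED (huF.sub hq0)) y h1 hy0.le, ?_, ?_⟩
          · intro g hg hxg q hq
            have hqu := hgu g hg hxg hq
            exact h2 q ⟨hET (huF.sub hqu), q, hqu, le_rfl⟩
          · intro J hJ hxJ
            exact absurd hxJ (hU' J hJ)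
      refine Or.inr (Or.inr ⟨{y | y ∈ T ∧ ∃ q ∈ u, q ≤ y}, hFT, ?_, ?_, heq⟩)
      · rintro j ⟨-, q, hq, hqj⟩
        exact lt_of_lt_of_le (hxlt q hq) hqj
      · rintro J' hJ' hgt ⟨p, hp, hpF⟩
        have hpu : ∀ q ∈ u, p < q := fun q hq => hpF q ⟨hET (huF.sub hq), q, hq, le_rfl⟩
        obtain ⟨q0, hq0⟩ := huF.ne
        have hpE : p ∈ E := hmE p (hup x₀ (hEU hx) p (hJ'.sub hp) (hgt p hp).le)
          (hdn q0 (hED (huF.sub hq0)) p (hJ'.sub hp) (hpu q0 hq0).le)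
        refine mx (J' ∩ E) (cutF hx hE hup hdn hET hJ' hgt hp hpE) ?_
        intro h hh
        by_cases hxh : x₀ ∈ h
        · exact Or.inl ⟨x₀, hxh, fun q hq => hgt q hq.1⟩
        · exact Or.inr ⟨p, ⟨hp, hpE⟩, fun q hq => hpu q (hgu h hh hxh hq)⟩
    · -- Case D
      have hall : ∀ g ∈ G, x₀ ∈ g := by
        intro g hg
        by_contra h
        exact hu ⟨g, hg, h⟩
      have heq : {y | y ∈ DE ∧ (∀ g ∈ G, x₀ ∉ g → ∀ q ∈ g, y < q) ∧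
          ∀ J ∈ G', x₀ ∈ J → ∃ j ∈ J, y ≤ j} = DE := by
        ext y
        constructor
        · exact fun h => h.1
        · intro h
          exact ⟨h, fun g hg hxg => absurd (hall g hg) hxg, fun J hJ hxJ => absurd hxJ (hU' J hJ)⟩
      rw [heq]
      rcases hc with hc | ⟨hIG, hxD, hlow⟩ | ⟨J, hJ, hgtJ, hlow, hD⟩
      · exact Or.inl hc
      · refine Or.inr (Or.inl ⟨⟨hIG.sub, hIG.ne, hIG.dn, hIG.dir,
          fun x hx' => le_trans hκ (hIG.lg x hx')⟩, hxD, ?_⟩)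
        rintro F' hF' hxF' ⟨p, hp, hpF⟩
        have key : ∀ a ∈ S₁, ∀ c ∈ F', a ≤ c → c ∈ S₁ := by
          intro a ha c hcF hac
          have hcT := hF'.sub hcF
          have hcE : c ∈ E := hmE c (hup a (hEU (hS₁E ha)) c hcT hac)
            (hdn p hp c hcT (hpF c hcF).le)
          have hcg : ∀ g ∈ G, c ∈ g := fun g hg =>
            (hG g hg).up a (hSg' a ha g hg (hall g hg)) c hcE hac
          exact (hS c).2 ⟨⟨hcE, fun g hg => Or.inl (hcg g hg)⟩,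
            fun g hg => ⟨fun _ => hall g hg, fun _ => hcg g hg⟩⟩
        refine mx' (F' ∩ S₁) ⟨Set.inter_subset_right, ⟨x₀, hxF', hxS⟩, ?_, ?_, ?_⟩ ?_
        · intro x hx' y hy hyx
          exact ⟨hF'.dn x hx'.1 y (hET (hS₁E hy)) hyx, hy⟩
        · intro x hx' y hy
          obtain ⟨z, hz, h1, h2⟩ := hF'.dir x hx'.1 y hy.1
          exact ⟨z, ⟨hz, key x hx'.2 z hz h1⟩, h1, h2⟩
        · intro x hx'
          refine le_trans (hF'.lg x hx'.1) (cd_mono ?_)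
          rintro y ⟨hy, hxy⟩
          exact ⟨⟨hy, key x hx'.2 y hy hxy⟩, hxy⟩
        · intro J hJ
          right
          refine ⟨x₀, ⟨hxF', hxS⟩, ?_⟩
          rcases hx0' J hJ with h | h
          · exact absurd h (hU' J hJ)
          · exact h
      · refine Or.inr (Or.inr ⟨J, ⟨hJ.sub, hJ.ne, hJ.up, hJ.dir,
          fun x hx' => le_trans hκ (hJ.lg x hx')⟩, hgtJ, ?_, hD⟩)
        rintro J' hJ' hgt ⟨p, hp, hpF⟩
        have hpD : p ∈ DE := by rw [hD]; exact ⟨hJ'.sub hp, hpF⟩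
        have hpE : p ∈ E := hmE p (hup x₀ (hEU hx) p (hJ'.sub hp) (hgt p hp).le) hpD
        refine mx (J' ∩ E) (cutF hx hE hup hdn hET hJ' hgt hp hpE) ?_
        intro h hh
        exact Or.inl ⟨x₀, hall h hh, fun q hq => hgt q hq.1⟩

end core

section transl
variable {α : Type} [PartialOrder α]

/-- the carrier of a dual germ as a subset of `α` -/
def cr {κ : Cardinal.{0}} {S : Set α} (J : KGerm κ (dS S)) : Set α := toDual ⁻¹' J.carrier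

/-- the carrier of a double dual germ as a subset of `α` -/
def cr2 {κ : Cardinal.{0}} {S : Set α} (J : KGerm κ (dS (dS S))) : Set α :=
  (fun x => toDual (toDual x)) ⁻¹' J.carrier

lemma toFG {κ : Cardinal.{0}} {E : Set α} (g : KGerm κ E) : FG κ E g.carrier :=
  ⟨g.sub, g.nonempty, g.up, g.dir, g.large⟩

lemma toIG {κ : Cardinal.{0}} {S : Set α} (J : KGerm κ (dS S)) : IG κ S (cr J) := by
  refine ⟨?_, ?_, ?_, ?_, ?_⟩
  · intro x hx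
    exact J.sub hx
  · obtain ⟨x, hx⟩ := J.nonempty
    exact ⟨ofDual x, hx⟩
  · intro x hx y hy hyx
    exact J.up (toDual x) hx (toDual y) hy hyx
  · intro x hx y hy
    obtain ⟨z, hz, h1, h2⟩ := J.dir (toDual x) hx (toDual y) hy
    exact ⟨ofDual z, hz, h1, h2⟩
  · intro x hx
    exact J.large (toDual x) hx

/-- ideal germs from sets -/
def ofIG {κ : Cardinal.{0}} {S C : Set α} (h : IG κ S C) : KGerm κ (dS S) where
  carrier := ofDual ⁻¹' C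
  sub := fun x hx => h.sub hx
  nonempty := by
    obtain ⟨x, hx⟩ := h.ne
    exact ⟨toDual x, hx⟩
  up := fun x hx y hy hxy => h.dn (ofDual x) hx (ofDual y) hy hxy
  dir := by
    intro x hx y hy
    obtain ⟨z, hz, h1, h2⟩ := h.dir (ofDual x) hx (ofDual y) hy
    exact ⟨toDual z, hz, h1, h2⟩
  large := fun x hx => h.lg (ofDual x) hx

lemma toFG2 {κ : Cardinal.{0}} {S : Set α} (J : KGerm κ (dS (dS S))) : FG κ S (cr2 J) := by
  refine ⟨?_, ?_, ?_, ?_, ?_⟩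
  · intro x hx
    exact J.sub hx
  · obtain ⟨x, hx⟩ := J.nonempty
    exact ⟨ofDual (ofDual x), hx⟩
  · intro x hx y hy hyx
    exact J.up (toDual (toDual x)) hx (toDual (toDual y)) hy hyx
  · intro x hx y hy
    obtain ⟨z, hz, h1, h2⟩ := J.dir (toDual (toDual x)) hx (toDual (toDual y)) hy
    exact ⟨ofDual (ofDual z), hz, h1, h2⟩
  · intro x hx
    exact J.large (toDual (toDual x)) hx

/-- filter germs of the double dual from sets -/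
def ofFG2 {κ : Cardinal.{0}} {S C : Set α} (h : FG κ S C) : KGerm κ (dS (dS S)) where
  carrier := (fun x => ofDual (ofDual x)) ⁻¹' C
  sub := fun x hx => h.sub hx
  nonempty := by
    obtain ⟨x, hx⟩ := h.ne
    exact ⟨toDual (toDual x), hx⟩
  up := fun x hx y hy hxy => h.up (ofDual (ofDual x)) hx (ofDual (ofDual y)) hy hxy
  dir := by
    intro x hx y hy
    obtain ⟨z, hz, h1, h2⟩ := h.dir (ofDual (ofDual x)) hx (ofDual (ofDual y)) hy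
    exact ⟨toDual (toDual z), hz, h1, h2⟩
  large := fun x hx => h.lg (ofDual (ofDual x)) hx

/-- filter germs from sets -/
def ofFG {κ : Cardinal.{0}} {S C : Set α} (h : FG κ S C) : KGerm κ S where
  carrier := C
  sub := h.sub
  nonempty := h.ne
  up := h.up
  dir := h.dir
  large := h.lg

lemma ucut_to {κ : Cardinal.{0}} {T : Set α} {x₀ : α} {D : Set α} (h : UCut κ T x₀ D) :
    UC κ T x₀ D := by
  rcases h with h | ⟨F, ⟨hxF, hlow⟩, hD⟩ | ⟨J, ⟨hgt, hlow⟩, hD⟩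
  · left
    ext y
    exact Set.ext_iff.1 h (toDual y)
  · right; left
    have hDF : D = cr F := by
      ext y
      exact Set.ext_iff.1 hD (toDual y)
    rw [hDF]
    refine ⟨toIG F, hxF, ?_⟩
    rintro F' hF' hxF' ⟨p, hp, hpF⟩
    exact hlow (ofIG hF') hxF' ⟨toDual p, hp, fun q hq => hpF (ofDual q) hq⟩
  · right; right
    refine ⟨cr2 J, toFG2 J, fun j hj => hgt (toDual (toDual j)) hj, ?_, ?_⟩
    · rintro J' hJ' hgt' ⟨p, hp, hpJ⟩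
      exact hlow (ofFG2 hJ') (fun j hj => hgt' (ofDual (ofDual j)) hj)
        ⟨toDual (toDual p), hp, fun q hq => hpJ (ofDual (ofDual q)) hq⟩
    · ext y
      have := Set.ext_iff.1 hD (toDual y)
      constructor
      · intro hy
        have h2 := this.1 hy
        exact ⟨h2.1, fun j hj => h2.2 (toDual (toDual j)) hj⟩
      · rintro ⟨h1, h2⟩
        exact this.2 ⟨h1, fun j hj => h2 (ofDual (ofDual j)) hj⟩

lemma ucut_of {κ : Cardinal.{0}} {T : Set α} {x₀ : α} {D : Set α} (h : UC κ T x₀ D) :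
    UCut κ T x₀ D := by
  rcases h with h | ⟨hD, hx, hlow⟩ | ⟨J, hJ, hgt, hlow, hD⟩
  · left
    rw [h]
  · right; left
    refine ⟨ofIG hD, ⟨hx, ?_⟩, rfl⟩
    rintro F' hxF' ⟨p, hp, hpF⟩
    exact hlow (cr F') (toIG F') hxF' ⟨ofDual p, hp, fun q hq => hpF (toDual q) hq⟩
  · right; right
    refine ⟨ofFG2 hJ, ⟨fun j hj => hgt (ofDual (ofDual j)) hj, ?_⟩, ?_⟩
    · rintro J' hgt' ⟨p, hp, hpJ⟩
      exact hlow (cr2 J') (toFG2 J') (fun j hj => hgt' (toDual (toDual j)) hj)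
        ⟨ofDual (ofDual p), hp, fun q hq => hpJ (toDual (toDual q)) hq⟩
    · ext y
      constructor
      · intro hy
        have h2 : ofDual y ∈ D := hy
        rw [hD] at h2
        exact ⟨h2.1, fun j hj => h2.2 (ofDual (ofDual j)) hj⟩
      · rintro ⟨h1, h2⟩
        have : ofDual y ∈ {y | y ∈ T ∧ ∀ j ∈ J, y < j} :=
          ⟨h1, fun j hj => h2 (toDual (toDual j)) hj⟩
        rw [← hD] at this
        exact this

end transl

theorem upp (hL : S_KLEAST) : S_UPP := by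
  intro α _ w _ κ κ' _ hκ T UE DE E x₀ hx hE _ hDT hup hdn hc S₁ S G G' hd
  apply ucut_of
  have hS : ∀ y, y ∈ S₁ ↔ (y ∈ E ∧ ∀ g ∈ KGerm.carrier '' G, y ∈ g ∨ ∀ q ∈ g, y < q) ∧
      ∀ g ∈ KGerm.carrier '' G, (y ∈ g ↔ x₀ ∈ g) := by
    intro y
    rw [hd.eq₁]
    constructor
    · rintro ⟨⟨h1, h2⟩, h3⟩
      refine ⟨⟨h1, ?_⟩, ?_⟩
      · rintro _ ⟨g, hg, rfl⟩
        exact h2 g hg
      · rintro _ ⟨g, hg, rfl⟩
        exact h3 g hg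
    · rintro ⟨⟨h1, h2⟩, h3⟩
      exact ⟨⟨h1, fun g hg => h2 _ ⟨g, hg, rfl⟩⟩, fun g hg => h3 _ ⟨g, hg, rfl⟩⟩
  have main := core (κ := κ) (κ' := κ') hκ hx hE hDT hup hdn (ucut_to hc) S₁
    (KGerm.carrier '' G) (cr '' G') ?_ ?_ ?_ hS ?_ ?_ ?_ ?_ ?_
  · convert main using 1
    ext y
    constructor
    · rintro ⟨h1, h2, h3⟩
      refine ⟨h1, ?_, ?_⟩
      · rintro _ ⟨g, hg, rfl⟩ hxg q hq
        exact h2 g hg hxg q hq
      · rintro _ ⟨J, hJ, rfl⟩ hxJ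
        obtain ⟨j, hj, hyj⟩ := h3 J hJ hxJ
        exact ⟨ofDual j, hj, hyj⟩
    · rintro ⟨h1, h2, h3⟩
      refine ⟨h1, fun g hg hxg q hq => h2 _ ⟨g, hg, rfl⟩ hxg q hq, ?_⟩
      intro J hJ hxJ
      obtain ⟨j, hj, hyj⟩ := h3 _ ⟨J, hJ, rfl⟩ hxJ
      exact ⟨toDual j, hj, hyj⟩
  · rintro _ ⟨g, hg, rfl⟩
    exact toFG g
  · intro C hC hcon
    apply hd.selG.mx (ofFG hC)
    intro g hg
    exact hcon _ ⟨g, hg, rfl⟩
  · rintro _ ⟨g, hg, rfl⟩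
    exact hd.memG.2 g hg
  · rintro _ ⟨J, hJ, rfl⟩
    exact toIG J
  · rintro _ ⟨a, ha, rfl⟩ _ ⟨b, hb, rfl⟩
    rcases hd.selG'.ch a ha b hb with h | ⟨p, hp, hq⟩ | ⟨p, hp, hq⟩
    · left; rw [h]
    · right; left
      exact ⟨ofDual p, hp, fun q hqb => hq (toDual q) hqb⟩
    · right; right
      exact ⟨ofDual p, hp, fun q hqb => hq (toDual q) hqb⟩
  · intro C hC hcon
    apply hd.selG'.mx (ofIG hC)
    intro J hJ
    rcases hcon _ ⟨J, hJ, rfl⟩ with ⟨p, hp, hq⟩ | ⟨p, hp, hq⟩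
    · left
      exact ⟨toDual p, hp, fun q hqb => hq (ofDual q) hqb⟩
    · right
      exact ⟨toDual p, hp, fun q hqb => hq (ofDual q) hqb⟩
  · rintro _ ⟨J, hJ, rfl⟩
    rcases hd.memG'.2 J hJ with h | h
    · exact Or.inl h
    · exact Or.inr (fun q hq => h (toDual q) hq)
  · rintro ⟨_, ⟨u, hu, rfl⟩, hxu⟩
    obtain ⟨v, hv, hxv, hmin⟩ := hL α κ E G hd.selG x₀ hd.memG ⟨u, hu, hxu⟩
    refine ⟨v.carrier, ⟨v, hv, rfl⟩, hxv, ?_⟩
    rintro _ ⟨h, hh, rfl⟩ hxh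
    rcases hmin h hh hxh with h1 | h1
    · left; rw [h1]
    · right; exact h1

end Pool.Agent.Y666.SF.Y390.UPP
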