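import Pool.Agent.Y666.SF.Free
import Pool.Agent.Y666.SF.Inc
import Pool.Agent.Y666.SF.Bet
import Pool.Agent.Y666.SF.Sys
import Pool.Agent.Y666.SF.Pc
import Pool.Agent.Y666.SF.Dual
import Pool.Agent.Y666.SF.Ind
import Pool.Agent.Y666.SF.Stpex
import Pool.Agent.Y666.SF.StpExt
import Pool.Agent.Y666.SF.Low
import Pool.Agent.Y666.SF.Upp
import Pool.Agent.Y666.SF.Adm
import Pool.Agent.Y666.SF.Tower
import Pool.Agent.Y666.SF.Glue
import Pool.Agent.Y666.SF.QL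
import Pool.Agent.Y666.SF.Red
import Pool.Agent.Y314.SF.Star
import Pool.Agent.Y585.SF.Coi
import Pool.Agent.Y569.SP.Greedy
import Pool.Agent.Y569.SP.Gz
import Pool.Agent.Y569.SP.Rado
import Pool.Agent.Y666.SP.Final

/-!
# PROJECT SF: assembly
-/

set_option autoImplicit false

namespace Pool.Agent.Y666.SF

theorem q_KLIM : Pool.Agent.Y666.SP.S_KLIM :=
  Pool.Agent.Y211.SP.t_KLIM Pool.Agent.Y405.SP.Kap.t_KGLB
theorem q_KLEAST : Pool.Agent.Y666.SP.S_KLEAST :=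
  Pool.Agent.Y211.SP.t_KLEAST Pool.Agent.Y405.SP.Kap.t_KGLB
theorem q_AC : S_AC := Y666.t_AC
theorem q_KAC : S_KAC := Y666.t_KAC
theorem q_KSYS : S_KSYS := Y666.t_KSYS
theorem q_DIR : S_DIR := Y666.t_DIR
theorem q_BIG : S_BIG := Y666.t_BIG q_DIR
theorem q_KINC : S_KINC := Y666.t_KINC q_BIG q_AC
theorem q_KSTAR : S_KSTAR := Y314.t_KSTAR
theorem q_KMP : S_KMP := Y314.t_KMP
theorem q_KBET : S_KBET := Y666.t_KBET q_KLIM q_AC
theorem q_KCOI : S_KCOI := Y585.t_KCOI q_KSTAR q_KLIM q_KBET q_AC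
theorem q_KFREE : S_KFREE := Y666.t_KFREE q_KMP q_KCOI q_DIR q_AC
theorem q_KRED : S_KRED := Y585.t_KRED q_KFREE Pool.Agent.Y569.SP.greedy
theorem q_KPC : S_KPC := Y433.kpc q_KSTAR q_KRED
theorem q_RED2 : S_RED2 := Y433.red2 Pool.Agent.Y666.SP.p_SEL q_KSYS q_KPC
theorem q_Q0 : S_Q0 := Y433.t_Q0 Pool.Agent.Y666.SP.p_ZAG
theorem q_QS : S_QS := Y433.t_QS q_RED2 q_KINC
theorem q_STPEX : S_STPEX := Y901.t_STPEX Pool.Agent.Y666.SP.p_SEL q_KSYS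
theorem q_FPROP : S_FPROP := Y901.t_FPROP q_KSTAR
theorem q_STPPROP : S_STPPROP := Y901.t_STPPROP q_FPROP
theorem q_STPEXT : S_STPEXT := Y700.t_STPEXT q_KPC
theorem q_LOW : S_LOW := Y415.t_low q_KLEAST
theorem q_UPP : S_UPP := Y390.UPP.upp q_KLEAST
theorem q_ADMSTEP : S_ADMSTEP := Y994.t_ADMSTEP q_LOW q_UPP Y994.t_CEQ
theorem q_ADMFIN : S_ADMFIN := Y994.t_ADMFIN q_KAC
theorem q_TOWER : S_TOWER :=
  Y96.tower Pool.Agent.Y569.SP.rado q_STPEX q_STPPROP q_ADMSTEP q_ADMFIN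
theorem q_GLUE : S_GLUE := Y96.glue Pool.Agent.Y569.SP.gz q_KINC q_STPEXT
theorem q_QL : S_QL := Y96.ql q_RED2 q_KINC q_TOWER q_GLUE

/-- Every poset of the class `Tm` has a spine. -/
theorem q_FULL : S_FULL := Y433.t_FULL q_Q0 q_QS q_QL

theorem spine_of_tm {α : Type} [PartialOrder α] (h : Tm α) :
    Pool.Agent.Y666.SP.HasSpine (Set.univ : Set α) := q_FULL α 0 h

end Pool.Agent.Y666.SF
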